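import Pool.Agent.H446R3.RS.Equi

set_option autoImplicit false
set_option linter.unusedSectionVars false
set_option linter.unusedVariables false
open Topology Filter Set MeasureTheory

namespace Pool.Agent.H446R3.RS

noncomputable section

variable {N : Network} {V : N.SType → Type} [∀ τ, NormedAddCommGroup (V τ)]
  [∀ τ, NormedSpace ℝ (V τ)]

/-- setoid of equal states -/
def stSetoid (z : Ph N V) : Setoid N.Node where
  r := fun a b => st z a = st z b
  iseqv := ⟨fun _ => rfl, fun h => h.symm, fun h h' => h.trans h'⟩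

/-- representative -/
def rep (z : Ph N V) (a : N.Node) : N.Node := (Quotient.mk (stSetoid z) a).out

lemma rep_st (z : Ph N V) (a : N.Node) : st z (rep z a) = st z a :=
  Quotient.mk_out (s := stSetoid z) a

lemma rep_sp (z : Ph N V) (a : N.Node) : N.sp (rep z a) = N.sp a :=
  (st_iff.1 (rep_st z a)).1

lemma rep_eq {z : Ph N V} {a b : N.Node} (h : st z a = st z b) : rep z a = rep z b := by
  unfold rep
  rw [Quotient.sound (s := stSetoid z) h]

/-- the retraction onto the polydiagonal -/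
def retr (z : Ph N V) : Ph N V →L[ℝ] Ph N V :=
  ContinuousLinearMap.pi fun a =>
    (cst (rep_sp z a)).comp (ContinuousLinearMap.proj (rep z a))

lemma retr_apply (z y : Ph N V) (a : N.Node) : retr z y a = cst (rep_sp z a) (y (rep z a)) := rfl

lemma retr_st (z y : Ph N V) (a : N.Node) : st (retr z y) a = st y (rep z a) := by
  symm
  rw [st_of (rep_sp z a), retr_apply]

lemma retr_st_eq (z y : Ph N V) {a b : N.Node} (h : st z a = st z b) :
    st (retr z y) a = st (retr z y) b := by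
  rw [retr_st, retr_st, rep_eq h]

lemma retr_fix (z y : Ph N V) (h : ∀ a b, st z a = st z b → st y a = st y b) :
    retr z y = y := by
  funext a
  rw [retr_apply]
  exact (st_of (rep_sp z a)).1 (h _ _ (rep_st z a))

/-- invariance of the polydiagonal -/
lemma invariant [∀ τ, FiniteDimensional ℝ (V τ)] {f₁ : Ph N V → Ph N V} {x₁ : ℝ → Ph N V}
    {T₁ t₀ : ℝ} (hf : Admissible f₁) (hx : ∀ t, HasDerivAt x₁ (f₁ (x₁ t)) t)
    (hper : ∀ t, x₁ (t + T₁) = x₁ t) (hT : 0 < T₁)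
    (hM : ∀ a b, st (x₁ t₀) a = st (x₁ t₀) b → Match (x₁ t₀) a b) (a b : N.Node)
    (hab : st (x₁ t₀) a = st (x₁ t₀) b) (t : ℝ) : st (x₁ t) a = st (x₁ t) b := by
  set z := x₁ t₀ with hz
  set R := retr z with hR
  have hcont : Continuous x₁ := continuous_iff_continuousAt.2 fun t => (hx t).continuousAt
  -- bounded
  obtain ⟨B, hB⟩ : ∃ B : ℝ, ∀ t, ‖x₁ t‖ ≤ B := by
    have hp : Function.Periodic x₁ T₁ := hper
    obtain ⟨B, hB⟩ := (isCompact_Icc (a := (0:ℝ)) (b := 0 + T₁)).exists_bound_of_continuousOn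
      hcont.continuousOn
    refine ⟨B, fun t => ?_⟩
    obtain ⟨s, hs, hs2⟩ := hp.exists_mem_Ico₀ hT t
    rw [hs2]
    exact hB s ⟨hs.1, by linarith [hs.2]⟩
  have hB0 : 0 ≤ B := (norm_nonneg _).trans (hB 0)
  obtain ⟨F, hF1, ⟨K, hK⟩, -, hF2⟩ := exists_cut hf.smooth
    (R := max B (‖R‖ * B)) (le_max_of_le_left hB0)
  have hb1 : ∀ t, f₁ (x₁ t) = F (x₁ t) := fun t => (hF2 _ (by
    rw [mem_ball_zero_iff]
    linarith [hB t, le_max_left B (‖R‖ * B)])).symm
  have hb2 : ∀ t, f₁ (R (x₁ t)) = F (R (x₁ t)) := fun t => (hF2 _ (by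
    rw [mem_ball_zero_iff]
    have h1 := R.le_opNorm (x₁ t)
    have h2 := mul_le_mul_of_nonneg_left (hB t) (norm_nonneg R)
    linarith [le_max_right B (‖R‖ * B)])).symm
  have hfix : ∀ y, R (f₁ (R y)) = f₁ (R y) := by
    intro y
    refine retr_fix z _ fun c d hcd => ?_
    obtain ⟨β, hβ⟩ := hM c d hcd
    exact hf.comp c d β (R y) (R y) (retr_st_eq z y hcd) (fun e => retr_st_eq z y (hβ e))
  set u : ℝ → Ph N V := fun t => x₁ t - R (x₁ t) with hu
  have hud : ∀ t, HasDerivAt u (f₁ (x₁ t) - R (f₁ (x₁ t))) t := fun t =>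
    (hx t).sub (R.hasFDerivAt.comp_hasDerivAt t (hx t))
  have hbound : ∀ t, ‖f₁ (x₁ t) - R (f₁ (x₁ t))‖ ≤ ((1 + ‖R‖) * K) * ‖u t‖ := by
    intro t
    have h1 : f₁ (x₁ t) - R (f₁ (x₁ t)) = (f₁ (x₁ t) - f₁ (R (x₁ t))) -
        R (f₁ (x₁ t) - f₁ (R (x₁ t))) := by
      rw [map_sub, hfix]; abel
    have h2 : ‖f₁ (x₁ t) - f₁ (R (x₁ t))‖ ≤ K * ‖u t‖ := by
      rw [hb1, hb2, ← dist_eq_norm]
      have := hK.dist_le_mul (x₁ t) (R (x₁ t))
      rw [dist_eq_norm (x₁ t)] at this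
      exact this
    rw [h1]
    refine (norm_sub_le _ _).trans ?_
    have h3 := R.le_opNorm (f₁ (x₁ t) - f₁ (R (x₁ t)))
    have h4 := mul_le_mul_of_nonneg_left h2 (norm_nonneg R)
    nlinarith
  have hu0 : u t₀ = 0 := by
    rw [hu]
    change x₁ t₀ - R (x₁ t₀) = 0
    rw [← hz, hR, retr_fix z z (fun _ _ h => h), sub_self]
  have hzero : ∀ t, t₀ ≤ t → u t = 0 := by
    intro t ht
    refine eq_zero_of_abs_deriv_le_mul_abs_self_of_eq_zero_right (f := u)
      (f' := fun t => f₁ (x₁ t) - R (f₁ (x₁ t))) (K := (1 + ‖R‖) * K) (a := t₀) (b := t)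
      (fun s _ => (hud s).continuousAt.continuousWithinAt)
      (fun s _ => (hud s).hasDerivWithinAt) hu0 (fun s _ => hbound s) t ⟨ht, le_rfl⟩
  obtain ⟨n, hn⟩ : ∃ n : ℕ, t₀ ≤ t + n * T₁ := by
    obtain ⟨n, hn⟩ := exists_nat_ge ((t₀ - t) / T₁)
    refine ⟨n, ?_⟩
    rw [div_le_iff₀ hT] at hn
    linarith
  have hp : Function.Periodic x₁ T₁ := hper
  have h1 : x₁ (t + n * T₁) = x₁ t := hp.nat_mul n t
  have h2 := hzero _ hn
  rw [hu] at h2
  simp only [h1] at h2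
  rw [sub_eq_zero] at h2
  rw [h2]
  exact retr_st_eq z _ hab

/-- synchrony of two nodes along a curve -/
def Sync (x : ℝ → Ph N V) (a b : N.Node) : Prop := ∀ t, st (x t) a = st (x t) b

/-- the conclusion for nondegenerate periodic orbits -/
lemma core [∀ τ, FiniteDimensional ℝ (V τ)] [∀ τ, Nontrivial (V τ)] {f : Ph N V → Ph N V}
    {x : ℝ → Ph N V} {T δ₀ : ℝ} (hf : Admissible f) (hx : PerOrb f x T) (hnd : NDeg f x T)
    (hδ₀ : 0 < δ₀)
    (hrig : ∀ (f' : Ph N V → Ph N V) (x' : ℝ → Ph N V) (T' : ℝ), Admissible f' →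
      (∀ z, ‖f' z - f z‖ < δ₀ ∧ ‖fderiv ℝ f' z - fderiv ℝ f z‖ < δ₀) → PerOrb f' x' T' →
      |T' - T| < δ₀ → (∀ t ∈ Icc 0 T, ‖x' t - x t‖ < δ₀) → ∀ a b, Sync x a b → Sync x' a b)
    (a b : N.Node) (hab : Sync x a b) :
    ∃ β : InputIso N a b, ∀ e : N.In a, Sync x (N.tail e.1) (N.tail (β.toEquiv e).1) := by
  -- choice of the size of the deformation
  have hsep : ∀ᶠ δ in 𝓝[>] (0:ℝ), ∀ c d, ¬ Sync x c d → ∀ x' : ℝ → Ph N V,
      (∀ t ∈ Icc 0 T, ‖x' t - x t‖ < δ) → ¬ Sync x' c d := by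
    rw [eventually_all]; intro c
    rw [eventually_all]; intro d
    by_cases h : Sync x c d
    · exact Eventually.of_forall fun δ h2 => absurd h h2
    · unfold Sync at h
      push Not at h
      obtain ⟨s, hs⟩ := h
      obtain ⟨s', hs', hss⟩ := hx.periodic.exists_mem_Ico₀ hx.pos s
      rw [hss] at hs
      have h1 : {z : Ph N V | st z c = st z d}ᶜ ∈ 𝓝 (x s') :=
        (isClosed_st c d).isOpen_compl.mem_nhds hs
      obtain ⟨ρ, hρ, hρ2⟩ := Metric.mem_nhds_iff.1 h1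
      have h2 : Iio ρ ∈ 𝓝[>] (0:ℝ) := mem_nhdsWithin_of_mem_nhds (Iio_mem_nhds hρ)
      filter_upwards [h2] with δ hδ _ x' hx' hs2
      have h3 := hx' s' ⟨hs'.1, hs'.2.le⟩
      have h4 : x' s' ∈ Metric.ball (x s') ρ := by
        rw [Metric.mem_ball, dist_eq_norm]
        exact h3.trans hδ
      exact hρ2 h4 (hs2 s')
  have hle : Iio δ₀ ∈ 𝓝[>] (0:ℝ) := mem_nhdsWithin_of_mem_nhds (Iio_mem_nhds hδ₀)
  have hpos : ∀ᶠ δ in 𝓝[>] (0:ℝ), 0 < δ := eventually_mem_nhdsWithin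
  obtain ⟨δ, ⟨hδs, hδl⟩, hδ⟩ := ((hsep.and hle).and hpos).exists
  have hC : Cls f x T δ f x T :=
    { adm := hf
      near := ⟨0, hδ, fun z => by simp⟩
      orb := hx
      nd := hnd
      per := by simpa using hδ
      close := fun t _ => by simpa using hδ }
  obtain ⟨f₁, x₁, T₁, t₀, hM⟩ := exists_max hC
  have hsync : ∀ c d, Sync x c d → Sync x₁ c d := by
    refine hrig f₁ x₁ T₁ hM.cls.adm (fun z => ?_) hM.cls.orb (hM.cls.per.trans hδl)
      (fun t ht => (hM.cls.close t ht).trans hδl)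
    obtain ⟨δ', h1, h2⟩ := hM.cls.near
    exact ⟨((h2 z).1.trans_lt h1).trans hδl, ((h2 z).2.trans_lt h1).trans hδl⟩
  have hmatch : ∀ c d, st (x₁ t₀) c = st (x₁ t₀) d → Match (x₁ t₀) c d := fun c d h =>
    match_all hx.continuous hM hf.smooth c d h
  have hinv : ∀ c d, st (x₁ t₀) c = st (x₁ t₀) d → Sync x c d := by
    intro c d h
    by_contra hn
    refine hδs c d hn x₁ hM.cls.close fun t => ?_
    exact invariant hM.cls.adm hM.cls.orb.sol hM.cls.orb.per hM.cls.orb.pos hmatch c d h t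
  obtain ⟨β, hβ⟩ := hmatch a b (hsync a b hab t₀)
  exact ⟨β, fun e => hinv _ _ (hβ e)⟩

end

end Pool.Agent.H446R3.RS
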