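import Pool.Agent.H446R3.RS.Mat

set_option autoImplicit false
set_option linter.unusedSectionVars false
set_option linter.unusedVariables false
open Topology Filter Set MeasureTheory

namespace Pool.Agent.H446R3.RS

noncomputable section

variable {N : Network} {V : N.SType → Type} [∀ τ, NormedAddCommGroup (V τ)]
  [∀ τ, NormedSpace ℝ (V τ)]

lemma Match.refl (z : Ph N V) (a : N.Node) : Match z a a := ⟨InputIso.refl a, fun _ => rfl⟩

lemma Match.symm {z : Ph N V} {a b : N.Node} (h : Match z a b) : Match z b a := by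
  obtain ⟨β, hβ⟩ := h
  refine ⟨β.symm, fun e => ?_⟩
  have h1 := hβ (β.toEquiv.symm e)
  rw [Equiv.apply_symm_apply] at h1
  exact h1.symm

lemma Match.trans {z : Ph N V} {a b c : N.Node} (h : Match z a b) (h' : Match z b c) :
    Match z a c := by
  obtain ⟨β, hβ⟩ := h
  obtain ⟨γ, hγ⟩ := h'
  exact ⟨β.trans γ, fun e => (hβ e).trans (hγ (β.toEquiv e))⟩

/-- equal states and matching inputs -/
def Eqv (z : Ph N V) (a b : N.Node) : Prop := st z a = st z b ∧ Match z a b

lemma Eqv.type {z : Ph N V} {a b : N.Node} (h : Eqv z a b) : N.sp a = N.sp b :=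
  (st_iff.1 h.1).1

lemma Eqv.refl (z : Ph N V) (a : N.Node) : Eqv z a a := ⟨rfl, Match.refl z a⟩

lemma Eqv.symm {z : Ph N V} {a b : N.Node} (h : Eqv z a b) : Eqv z b a :=
  ⟨h.1.symm, h.2.symm⟩

lemma Eqv.trans {z : Ph N V} {a b c : N.Node} (h : Eqv z a b) (h' : Eqv z b c) : Eqv z a c :=
  ⟨h.1.trans h'.1, h.2.trans h'.2⟩

/-- setoid of `Eqv` -/
def eqvSetoid (z : Ph N V) : Setoid N.Node where
  r := Eqv z
  iseqv := ⟨Eqv.refl z, Eqv.symm, Eqv.trans⟩

lemma st_add {ξ η : Ph N V} {a b : N.Node} (h1 : st ξ a = st ξ b) (h2 : st η a = st η b) :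
    st (ξ + η) a = st (ξ + η) b := by
  obtain ⟨h, h3⟩ := st_iff.1 h1
  rw [st_of h] at h2 ⊢
  simp only [Pi.add_apply, map_add, h3, h2]

lemma st_smul {ξ : Ph N V} {a b : N.Node} (r : ℝ) (h1 : st ξ a = st ξ b) :
    st (r • ξ) a = st (r • ξ) b := by
  obtain ⟨h, h3⟩ := st_iff.1 h1
  rw [st_of h]
  simp only [Pi.smul_apply, map_smul, h3]

lemma st_zero {a b : N.Node} (h : N.sp a = N.sp b) :
    st (0 : Ph N V) a = st (0 : Ph N V) b := by
  rw [st_of h]; simp

/-- vectors supported on the set `Z`, constant on the classes of the relation `r` -/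
def relSub (Z : N.Node → Prop) (r : N.Node → N.Node → Prop)
    (hr : ∀ a b, r a b → N.sp a = N.sp b) : Submodule ℝ (Ph N V) where
  carrier := {ξ | (∀ e, ¬ Z e → ξ e = 0) ∧ ∀ a b, r a b → st ξ a = st ξ b}
  add_mem' := by
    rintro ξ η ⟨h1, h2⟩ ⟨h3, h4⟩
    refine ⟨fun e he => ?_, fun a b hab => st_add (h2 a b hab) (h4 a b hab)⟩
    rw [Pi.add_apply, h1 e he, h3 e he, add_zero]
  zero_mem' := ⟨fun _ _ => rfl, fun a b hab => st_zero (hr a b hab)⟩
  smul_mem' := by
    rintro r ξ ⟨h1, h2⟩
    refine ⟨fun e he => ?_, fun a b hab => st_smul r (h2 a b hab)⟩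
    rw [Pi.smul_apply, h1 e he, smul_zero]

open Classical in
/-- the vector `w` on the class of `c` -/
def cls (z : Ph N V) (c : N.Node) (w : V (N.sp c)) : Ph N V :=
  fun e => if h : Eqv z c e then cst h.type w else 0

lemma cls_of {z : Ph N V} {c e : N.Node} (h : Eqv z c e) (w : V (N.sp c)) :
    cls z c w e = cst h.type w := by
  unfold cls; rw [dif_pos h]

lemma cls_not {z : Ph N V} {c e : N.Node} (h : ¬ Eqv z c e) (w : V (N.sp c)) :
    cls z c w e = 0 := by
  unfold cls; rw [dif_neg h]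

lemma cls_st {z : Ph N V} {c a b : N.Node} (w : V (N.sp c)) (h : Eqv z a b) :
    st (cls z c w) a = st (cls z c w) b := by
  rw [st_of h.type]
  by_cases h1 : Eqv z c a
  · rw [cls_of h1, cls_of (h1.trans h), cst_cst]
  · rw [cls_not h1, cls_not (fun h2 => h1 (h2.trans h.symm)), map_zero]

/-- decomposition into classes -/
lemma sum_cls {z ξ : Ph N V} (h : ∀ a b, Eqv z a b → st ξ a = st ξ b)
    [Fintype (Quotient (eqvSetoid z))] :
    ξ = ∑ q : Quotient (eqvSetoid z), cls z q.out (ξ q.out) := by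
  classical
  funext e
  rw [Finset.sum_apply]
  rw [Finset.sum_eq_single (Quotient.mk (eqvSetoid z) e)]
  · have h1 : Eqv z (Quotient.mk (eqvSetoid z) e).out e :=
      Quotient.mk_out (s := eqvSetoid z) e
    rw [cls_of h1]
    exact ((st_of h1.type).1 (h _ _ h1)).symm
  · intro q _ hq
    refine cls_not (fun h1 => hq ?_) _
    have : Quotient.mk (eqvSetoid z) q.out = Quotient.mk (eqvSetoid z) e :=
      Quotient.sound (s := eqvSetoid z) h1
    rw [← this, Quotient.out_eq]
  · intro h1; exact absurd (Finset.mem_univ _) h1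

variable [∀ τ, FiniteDimensional ℝ (V τ)]

/-- for large `n` the bump at the tuple of `c` is a multiple of the class vector -/
lemma bump_cls (c : N.Node) (z : Ph N V) (w : V (N.sp c)) :
    ∃ κ : ℕ, 0 < κ ∧ ∀ᶠ n : ℕ in atTop,
      bump c (tup V (InputIso.refl c) z) (psi V c n) w z = (κ : ℝ) • cls z c w := by
  classical
  set Y := tup V (InputIso.refl c) z with hY
  let κ : N.Node → ℕ := fun e => (Finset.univ.filter fun β : InputIso N c e => tup V β z = Y).card
  have hval : ∀ᶠ n : ℕ in atTop, ∀ e, ∀ β : InputIso N c e,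
      psi V c n (tup V β z - Y) = if tup V β z = Y then 1 else 0 := by
    rw [eventually_all]; intro e
    rw [eventually_all]; intro β
    by_cases h : tup V β z = Y
    · refine Eventually.of_forall fun n => ?_
      rw [if_pos h, h, sub_self, psi_zero]
    · have h2 : 0 < ‖tup V β z - Y‖ := norm_pos_iff.2 (sub_ne_zero.2 h)
      filter_upwards [tendsto_one_div_add_atTop_nhds_zero_nat.eventually (gt_mem_nhds h2)]
        with n hn
      rw [if_neg h, psi_far c n hn.le]
  have hk : ∀ e, Eqv z c e → κ e = κ c := by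
    rintro e ⟨h1, γ, hγ⟩
    refine (Finset.card_bij (fun β _ => InputIso.transEquiv γ β) ?_ ?_ ?_).symm
    · intro β hβ
      simp only [Finset.mem_filter, Finset.mem_univ, true_and] at hβ ⊢
      rw [← hβ, tup_eq_iff]
      refine ⟨h1.symm, fun i => ?_⟩
      exact (hγ (β.toEquiv i)).symm
    · intro β _ β' _ h
      exact (InputIso.transEquiv γ).injective h
    · intro β' hβ'
      simp only [Finset.mem_filter, Finset.mem_univ, true_and] at hβ'
      refine ⟨(InputIso.transEquiv γ).symm β', ?_, Equiv.apply_symm_apply _ _⟩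
      simp only [Finset.mem_filter, Finset.mem_univ, true_and]
      rw [← hβ', tup_eq_iff]
      refine ⟨h1, fun i => ?_⟩
      have h2 := hγ (((InputIso.transEquiv (c := c) γ).symm β').toEquiv i)
      rw [h2]
      have h3 : γ.toEquiv (((InputIso.transEquiv (c := c) γ).symm β').toEquiv i) =
          β'.toEquiv i := by
        have h4 := Equiv.apply_symm_apply (InputIso.transEquiv (c := c) γ) β'
        have h5 := congrArg (fun δ : InputIso N c e => δ.toEquiv i) h4
        exact h5
      rw [h3]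
  have hk0 : ∀ e, ¬ Eqv z c e → κ e = 0 := by
    intro e he
    refine Finset.card_eq_zero.2 (Finset.filter_eq_empty_iff.2 fun β _ hβ => he ?_)
    rw [hY, tup_eq_iff] at hβ
    exact ⟨hβ.1.symm, β, fun i => (hβ.2 i).symm⟩
  refine ⟨κ c, Finset.card_pos.2 ⟨InputIso.refl c, by simp [hY]⟩, ?_⟩
  filter_upwards [hval] with n hn
  funext e
  rw [Pi.smul_apply]
  have h1 : bump c Y (psi V c n) w z e = ∑ β : InputIso N c e,
      (if tup V β z = Y then (1:ℝ) else 0) • cst β.spq w := by
    unfold bump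
    exact Finset.sum_congr rfl fun β _ => by rw [hn]
  rw [h1]
  by_cases he : Eqv z c e
  · have h2 : ∑ β : InputIso N c e,
        (if tup V β z = Y then (1:ℝ) else 0) • cst β.spq w =
        ∑ β : InputIso N c e, (if tup V β z = Y then (1:ℝ) else 0) • cst he.type w :=
      Finset.sum_congr rfl fun β _ => rfl
    rw [h2, ← Finset.sum_smul, cls_of he, Finset.sum_boole]
    congr 1
    exact_mod_cast hk e he
  · rw [cls_not he, smul_zero]
    have h3 := hk0 e he
    rw [Finset.card_eq_zero, Finset.filter_eq_empty_iff] at h3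
    exact Finset.sum_eq_zero fun β _ => by
      rw [if_neg (h3 (Finset.mem_univ β)), zero_smul]

variable {f f₁ : Ph N V → Ph N V} {x x₁ : ℝ → Ph N V} {T δ T₁ t₀ : ℝ}

/-- the equilibrium argument -/
lemma match_of_rest [∀ τ, Nontrivial (V τ)] (hx : Continuous x)
    (hM : IsMx f x T δ f₁ x₁ T₁ t₀) (hf : ContDiff ℝ 1 f) (a b : N.Node)
    (hab : st (x₁ t₀) a = st (x₁ t₀) b) (ha : f₁ (x₁ t₀) a = 0) : Match (x₁ t₀) a b := by
  classical
  set z := x₁ t₀ with hz
  set D := fderiv ℝ f₁ z with hD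
  let Z : N.Node → Prop := fun e => f₁ z e = 0
  have hZst : ∀ c d, st z c = st z d → Z c → Z d := by
    intro c d h hc
    have h1 := vel_eq hx hM hf c d h
    obtain ⟨h2, h3⟩ := st_iff.1 h1
    change f₁ z d = 0
    rw [← h3]
    change cst h2 (f₁ z c) = 0
    rw [hc, map_zero]
  let U1 : Submodule ℝ (Ph N V) := relSub Z (fun a b => st z a = st z b)
    (fun a b h => (st_iff.1 h).1)
  let U2 : Submodule ℝ (Ph N V) := relSub Z (Eqv z) (fun a b h => h.type)
  have h12 : U1 ≤ U2 := fun ξ hξ => ⟨hξ.1, fun a b h => hξ.2 a b h.1⟩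
  let Λ : Ph N V →ₗ[ℝ] Ph N V := LinearMap.pi fun e =>
    if Z e then (LinearMap.proj e).comp (D : Ph N V →ₗ[ℝ] Ph N V) else 0
  have hΛ : ∀ ξ e, Z e → Λ ξ e = D ξ e := by
    intro ξ e he
    simp only [Λ, LinearMap.pi_apply, if_pos he]
    rfl
  have hΛ' : ∀ ξ e, ¬ Z e → Λ ξ e = 0 := by
    intro ξ e he
    simp only [Λ, LinearMap.pi_apply, if_neg he]
    rfl
  -- derivative only depends on the nodes at rest
  have hloc : ∀ η : Ph N V, (∀ e, Z e → η e = 0) → ∀ e, Z e → D η e = 0 := by
    intro η hη e he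
    have h1 : ∀ s : ℝ, f₁ (z + s • η) e = f₁ z e := by
      intro s
      have h2 := hM.cls.adm.comp e e (InputIso.refl e) (z + s • η) z
        (by rw [st_of rfl, cst_self, Pi.add_apply, Pi.smul_apply, hη e he, smul_zero, add_zero])
        (fun i => by
          have h3 := hη _ (rest_closed hx hM hf e he i)
          change st (z + s • η) (N.tail i.1) = st z (N.tail i.1)
          rw [st_of rfl, cst_self, Pi.add_apply, Pi.smul_apply, h3, smul_zero, add_zero])
      rw [st_of rfl, cst_self] at h2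
      exact h2
    have d1 : HasDerivAt (fun s : ℝ => z + s • η) η 0 := by
      simpa using ((hasDerivAt_id (0:ℝ)).smul_const η).const_add z
    have d2 := (hM.cls.adm.smooth.differentiable one_ne_zero (z + (0:ℝ) • η)).hasFDerivAt
    have d3 := d2.comp_hasDerivAt (0:ℝ) d1
    rw [zero_smul, add_zero] at d3
    have d4 := (hasDerivAt_pi.1 d3) e
    have d5 : HasDerivAt (fun _ : ℝ => f₁ z e) 0 0 := hasDerivAt_const _ _
    exact d4.unique (d5.congr_of_eventuallyEq (Eventually.of_forall h1))
  -- class vectors are in the range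
  have hrange : ∀ c (w : V (N.sp c)), Z c → cls z c w ∈ U1.map Λ := by
    intro c w hc
    obtain ⟨κ, hκ, hev⟩ := bump_cls c z w
    obtain ⟨n, hn⟩ := hev.exists
    obtain ⟨C, hC0, hC⟩ := getFam hM
    obtain ⟨y, τ, ζ, hF, hζ⟩ := hC _ (psi_pert c n (tup V (InputIso.refl c) z) w)
    set ξ : Ph N V := fun e => if Z e then ζ e else 0 with hξ
    have hξU : ξ ∈ U1 := by
      refine ⟨fun e he => by simp only [hξ, if_neg he], fun c' d' h => ?_⟩
      obtain ⟨h1, h2⟩ := st_iff.1 h
      rw [st_of h1]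
      by_cases hc' : Z c'
      · have hd' : Z d' := hZst c' d' h hc'
        simp only [hξ, if_pos hc', if_pos hd']
        exact (rel_pair hx hM (psi_pert c n _ w) hF hf c' d' h1 h).1
      · have hd' : ¬ Z d' := fun h3 => hc' (hZst d' c' h.symm h3)
        simp only [hξ, if_neg hc', if_neg hd', map_zero]
    have hΛξ : Λ ξ = -((κ:ℝ) • cls z c w) := by
      funext e
      by_cases he : Z e
      · rw [hΛ ξ e he]
        have h1 : D ξ e = D ζ e := by
          have h2 := hloc (ξ - ζ) (fun e he => by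
            rw [Pi.sub_apply]; simp only [hξ, if_pos he, sub_self]) e he
          rw [map_sub, Pi.sub_apply, sub_eq_zero] at h2
          exact h2
        rw [h1]
        have h3 := rel_zero hx hM (psi_pert c n (tup V (InputIso.refl c) z) w) hF hf e he
        rw [hn] at h3
        exact h3
      · rw [hΛ' ξ e he, Pi.neg_apply, Pi.smul_apply, cls_not (fun h => he (hZst c e h.1 hc)),
          smul_zero, neg_zero]
    have h2 : cls z c w = (-(κ:ℝ)⁻¹) • Λ ξ := by
      rw [hΛξ, smul_neg, neg_smul, neg_neg, smul_smul, inv_mul_cancel₀, one_smul]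
      exact_mod_cast hκ.ne'
    rw [h2]
    exact (U1.map Λ).smul_mem _ (Submodule.mem_map_of_mem hξU)
  have hle : U2 ≤ U1.map Λ := by
    intro ξ hξ
    let _ : Fintype (Quotient (eqvSetoid z)) := Fintype.ofFinite _
    rw [sum_cls (z := z) (ξ := ξ) hξ.2]
    refine Submodule.sum_mem _ fun q _ => ?_
    by_cases hq : Z q.out
    · exact hrange _ _ hq
    · have h0 : cls z q.out (ξ q.out) = 0 := by
        rw [hξ.1 _ hq]
        funext e
        by_cases h : Eqv z q.out e
        · rw [cls_of h, map_zero]; rfl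
        · rw [cls_not h]; rfl
      rw [h0]; exact Submodule.zero_mem _
  have hfin : Module.finrank ℝ U2 ≤ Module.finrank ℝ U1 :=
    (Submodule.finrank_mono hle).trans (Submodule.finrank_map_le Λ U1)
  have heq : U1 = U2 := Submodule.eq_of_le_of_finrank_le h12 hfin
  by_contra hnm
  obtain ⟨w, hw⟩ := exists_ne (0 : V (N.sp a))
  have hcU2 : cls z a w ∈ U2 := by
    refine ⟨fun e he => cls_not (fun h => he (hZst a e h.1 ha)) w, fun c d h => cls_st w h⟩
  rw [← heq] at hcU2
  have h1 := hcU2.2 a b hab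
  obtain ⟨h2, h3⟩ := st_iff.1 h1
  rw [cls_of (Eqv.refl z a), cst_self, cls_not (fun h => hnm h.2)] at h3
  have h4 := norm_cst h2 w
  rw [h3, norm_zero] at h4
  exact hw (norm_eq_zero.1 h4.symm)

/-- at a maximiser the pattern of equal states is balanced -/
lemma match_all [∀ τ, Nontrivial (V τ)] (hx : Continuous x)
    (hM : IsMx f x T δ f₁ x₁ T₁ t₀) (hf : ContDiff ℝ 1 f) (a b : N.Node)
    (hab : st (x₁ t₀) a = st (x₁ t₀) b) : Match (x₁ t₀) a b := by
  rcases match_or_rest hx hM hf a b hab with h | h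
  · exact h
  · exact match_of_rest hx hM hf a b hab h

end

end Pool.Agent.H446R3.RS
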