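import Pool.Agent.H446R3.RS.Lin

set_option autoImplicit false
open Topology Filter Set MeasureTheory
open Pool.Agent.GR.Flow

namespace Pool.Agent.H446R3.RS

noncomputable section

/-- periodic solution with nonzero velocity -/
structure PerOrb {E : Type} [NormedAddCommGroup E] [NormedSpace ℝ E]
    (f : E → E) (x : ℝ → E) (T : ℝ) : Prop where
  sol : ∀ t, HasDerivAt x (f (x t)) t
  per : ∀ t, x (t + T) = x t
  pos : 0 < T
  ne : f (x 0) ≠ 0

/-- nondegenerate periodic solution -/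
def NDeg {E : Type} [NormedAddCommGroup E] [NormedSpace ℝ E]
    (f : E → E) (x : ℝ → E) (T : ℝ) : Prop :=
  ∃ Φ : ℝ → E →L[ℝ] E, IsFund f x Φ ∧ ∃ ℓ : E →L[ℝ] ℝ, ∀ (u : E) (s : ℝ),
    Φ T u - u + s • f (x 0) = 0 → ℓ u = 0 → u = 0 ∧ s = 0

variable {E : Type} [NormedAddCommGroup E] [NormedSpace ℝ E]

lemma PerOrb.continuous {f : E → E} {x : ℝ → E} {T : ℝ} (h : PerOrb f x T) : Continuous x :=
  continuous_iff_continuousAt.2 fun t => (h.sol t).continuousAt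

lemma PerOrb.periodic {f : E → E} {x : ℝ → E} {T : ℝ} (h : PerOrb f x T) :
    Function.Periodic x T := h.per

/-- cut-off -/
lemma exists_cut {G : Type} [NormedAddCommGroup G] [NormedSpace ℝ G]
    [FiniteDimensional ℝ E] {f : E → G} (hf : ContDiff ℝ 1 f) {R : ℝ} (hR : 0 ≤ R) :
    ∃ F : E → G, ContDiff ℝ 1 F ∧ (∃ K : NNReal, LipschitzWith K F) ∧
      (∃ M : NNReal, ∀ z, ‖F z‖ ≤ M) ∧ ∀ z ∈ Metric.ball (0:E) (R + 1), F z = f z := by
  let χ : ContDiffBump (0:E) := ⟨R + 1, R + 2, by linarith, by linarith⟩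
  have h1 : ContDiff ℝ 1 (fun z => χ z • f z) := χ.contDiff.smul hf
  have h2 : HasCompactSupport (fun z => χ z • f z) := χ.hasCompactSupport.smul_right
  refine ⟨fun z => χ z • f z, h1, ?_, ?_, ?_⟩
  · obtain ⟨C, hC⟩ := h1.lipschitzWith_of_hasCompactSupport h2 one_ne_zero
    exact ⟨C, hC⟩
  · obtain ⟨C, hC⟩ := h1.continuous.bounded_above_of_compact_support h2
    refine ⟨⟨max C 0, le_max_right _ _⟩, fun z => ?_⟩
    exact (hC z).trans (le_max_left _ _)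
  · intro z hz
    have : χ z = 1 := χ.one_of_mem_closedBall (Metric.ball_subset_closedBall hz)
    simp [this]

/-- the extended field -/
def XF (F g : E → E) (θ : ℝ → ℝ) (w : E × ℝ) : E × ℝ := (F w.1 + θ w.2 • g w.1, 0)

lemma XF_contDiff {F g : E → E} {θ : ℝ → ℝ} (hF : ContDiff ℝ 1 F) (hg : ContDiff ℝ 1 g)
    (hθ : ContDiff ℝ 1 θ) : ContDiff ℝ 1 (XF F g θ) := by
  unfold XF
  exact ((hF.comp contDiff_fst).add ((hθ.comp contDiff_snd).smul (hg.comp contDiff_fst))).prodMk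
    contDiff_const

lemma XF_lip {F g : E → E} {θ : ℝ → ℝ} {K₁ K₂ K₃ : NNReal} {B M : NNReal}
    (hF : LipschitzWith K₁ F)
    (hg : LipschitzWith K₂ g) (hθ : LipschitzWith K₃ θ) (hB : ∀ z, ‖g z‖ ≤ B)
    (hM : ∀ s, ‖θ s‖ ≤ M) : ∃ K : NNReal, LipschitzWith K (XF F g θ) := by
  refine ⟨K₁ + (K₃ * B + M * K₂), LipschitzWith.of_dist_le_mul fun w w' => ?_⟩
  unfold XF
  have h1 : dist (F w.1 + θ w.2 • g w.1, (0:ℝ)) (F w'.1 + θ w'.2 • g w'.1, (0:ℝ)) =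
      dist (F w.1 + θ w.2 • g w.1) (F w'.1 + θ w'.2 • g w'.1) := by
    rw [Prod.dist_eq]; simp
  rw [h1, dist_eq_norm]
  have h2 : F w.1 + θ w.2 • g w.1 - (F w'.1 + θ w'.2 • g w'.1) =
      (F w.1 - F w'.1) + ((θ w.2 - θ w'.2) • g w.1 + θ w'.2 • (g w.1 - g w'.1)) := by
    rw [sub_smul, smul_sub]; abel
  rw [h2]
  have d1 : dist w.1 w'.1 ≤ dist w w' := by rw [Prod.dist_eq]; exact le_max_left _ _
  have d2 : dist w.2 w'.2 ≤ dist w w' := by rw [Prod.dist_eq]; exact le_max_right _ _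
  have e1 : ‖F w.1 - F w'.1‖ ≤ K₁ * dist w w' := by
    rw [← dist_eq_norm]
    exact (hF.dist_le_mul _ _).trans (mul_le_mul_of_nonneg_left d1 K₁.2)
  have e2 : ‖(θ w.2 - θ w'.2) • g w.1‖ ≤ (K₃ * dist w w') * B := by
    rw [norm_smul, ← dist_eq_norm]
    exact mul_le_mul ((hθ.dist_le_mul _ _).trans (mul_le_mul_of_nonneg_left d2 K₃.2)) (hB _)
      (norm_nonneg _) (by positivity)
  have e3 : ‖θ w'.2 • (g w.1 - g w'.1)‖ ≤ M * (K₂ * dist w w') := by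
    rw [norm_smul, ← dist_eq_norm (g w.1)]
    exact mul_le_mul (hM _) ((hg.dist_le_mul _ _).trans (mul_le_mul_of_nonneg_left d1 K₂.2))
      dist_nonneg M.2
  calc _ ≤ ‖F w.1 - F w'.1‖ + (‖(θ w.2 - θ w'.2) • g w.1‖ + ‖θ w'.2 • (g w.1 - g w'.1)‖) :=
        (norm_add_le _ _).trans (by gcongr; exact norm_add_le _ _)
    _ ≤ K₁ * dist w w' + ((K₃ * dist w w') * B + M * (K₂ * dist w w')) := by
        gcongr
    _ = _ := by push_cast; ring

lemma XF_bdd {F g : E → E} {θ : ℝ → ℝ} {M₁ B M : NNReal} (hF : ∀ z, ‖F z‖ ≤ M₁)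
    (hB : ∀ z, ‖g z‖ ≤ B) (hM : ∀ s, ‖θ s‖ ≤ M) : ∃ M' : NNReal, ∀ w, ‖XF F g θ w‖ ≤ M' := by
  refine ⟨M₁ + M * B, fun w => ?_⟩
  unfold XF
  rw [Prod.norm_def]
  simp only [norm_zero]
  rw [max_eq_left (norm_nonneg _)]
  refine (norm_add_le _ _).trans ?_
  push_cast
  rw [norm_smul]
  exact add_le_add (hF _) (mul_le_mul (hM _) (hB _) (norm_nonneg _) M.2)

lemma XF_fderiv {F g : E → E} {θ : ℝ → ℝ} (hF : ContDiff ℝ 1 F) (hg : ContDiff ℝ 1 g)
    (hθ : ContDiff ℝ 1 θ) (w v : E × ℝ) :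
    fderiv ℝ (XF F g θ) w v =
      (fderiv ℝ F w.1 v.1 + (θ w.2 • fderiv ℝ g w.1 v.1 + (fderiv ℝ θ w.2 v.2) • g w.1), 0) := by
  have dF := (hF.differentiable one_ne_zero w.1).hasFDerivAt
  have dg := (hg.differentiable one_ne_zero w.1).hasFDerivAt
  have dθ := (hθ.differentiable one_ne_zero w.2).hasFDerivAt
  have f1 : HasFDerivAt (fun w : E × ℝ => F w.1)
      ((fderiv ℝ F w.1).comp (ContinuousLinearMap.fst ℝ E ℝ)) w := dF.comp w hasFDerivAt_fst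
  have f2 : HasFDerivAt (fun w : E × ℝ => g w.1)
      ((fderiv ℝ g w.1).comp (ContinuousLinearMap.fst ℝ E ℝ)) w := dg.comp w hasFDerivAt_fst
  have f3 : HasFDerivAt (fun w : E × ℝ => θ w.2)
      ((fderiv ℝ θ w.2).comp (ContinuousLinearMap.snd ℝ E ℝ)) w := dθ.comp w hasFDerivAt_snd
  have h := (f1.add (f3.smul f2)).prodMk (hasFDerivAt_const (0:ℝ) w)
  have h' : HasFDerivAt (XF F g θ) _ w := h
  rw [h'.fderiv]
  simp

lemma flow_snd {F g : E → E} {θ : ℝ → ℝ} {φ : ℝ → E × ℝ → E × ℝ}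
    (hφ : IsFlowOf (XF F g θ) φ) (t : ℝ) (w : E × ℝ) : (φ t w).2 = w.2 := by
  have h : ∀ t, HasDerivAt (fun t => (φ t w).2) 0 t := fun t => by
    have := (hasFDerivAt_snd (𝕜 := ℝ) (p := φ t w)).comp_hasDerivAt t (hφ.deriv w t)
    exact this
  have h2 := is_const_of_deriv_eq_zero (f := fun t => (φ t w).2)
    (fun t => (h t).differentiableAt) (fun t => (h t).deriv) t 0
  simp only [hφ.zero] at h2
  exact h2

lemma flow_fst {F g : E → E} {θ : ℝ → ℝ} {φ : ℝ → E × ℝ → E × ℝ}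
    (hφ : IsFlowOf (XF F g θ) φ) (t : ℝ) (w : E × ℝ) :
    HasDerivAt (fun t => (φ t w).1) (F (φ t w).1 + θ w.2 • g (φ t w).1) t := by
  have := (hasFDerivAt_fst (𝕜 := ℝ) (p := φ t w)).comp_hasDerivAt t (hφ.deriv w t)
  have h2 : (ContinuousLinearMap.fst ℝ E ℝ) (XF F g θ (φ t w)) =
      F (φ t w).1 + θ w.2 • g (φ t w).1 := by
    simp [XF, flow_snd hφ]
  rw [h2] at this
  exact this

lemma fderiv_joint [CompleteSpace E] {X : E → E} (hX : ContDiff ℝ 1 X) {K : NNReal}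
    (hK : LipschitzWith K X) {φ : ℝ → E → E} (hφ : IsFlowOf X φ) (τ s : ℝ) (z v : E) :
    fderiv ℝ (fun p : ℝ × E => φ p.1 p.2) (τ, z) (s, v) =
      s • X (φ τ z) + fderiv ℝ (φ τ) z v := by
  have hC := (contDiff_flow' hX hK hφ).differentiable one_ne_zero (τ, z)
  have h1 : HasFDerivAt (fun z' : E => φ τ z')
      ((fderiv ℝ (fun p : ℝ × E => φ p.1 p.2) (τ, z)).comp
        (ContinuousLinearMap.inr ℝ ℝ E)) z :=
    HasFDerivAt.comp (g := fun p : ℝ × E => φ p.1 p.2) (f := fun z' : E => (τ, z')) z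
      hC.hasFDerivAt (hasFDerivAt_prodMk_right τ z)
  have h2 : HasFDerivAt (fun t' : ℝ => φ t' z)
      ((fderiv ℝ (fun p : ℝ × E => φ p.1 p.2) (τ, z)).comp
        (ContinuousLinearMap.inl ℝ ℝ E)) τ :=
    HasFDerivAt.comp (g := fun p : ℝ × E => φ p.1 p.2) (f := fun t' : ℝ => (t', z)) τ
      hC.hasFDerivAt (hasFDerivAt_prodMk_left (𝕜 := ℝ) τ z)
  have h3 : fderiv ℝ (φ τ) z = _ := h1.fderiv
  have h4 := (hφ.deriv z τ).hasFDerivAt.unique h2
  have h5 : ((s, v) : ℝ × E) = ContinuousLinearMap.inl ℝ ℝ E s +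
      ContinuousLinearMap.inr ℝ ℝ E v := by simp
  rw [h5, map_add, h3]
  congr 1
  have h6 := congrArg (fun L : ℝ →L[ℝ] E => L s) h4
  simp only [ContinuousLinearMap.comp_apply] at h6
  rw [← h6]
  simp

end

end Pool.Agent.H446R3.RS
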