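import Pool.Agent.H446R3.RS.Core

set_option autoImplicit false
set_option linter.unusedSectionVars false
open Topology Filter Set MeasureTheory

namespace Pool.Agent.H446R3.RS

noncomputable section

variable {E : Type} [NormedAddCommGroup E] [NormedSpace ℝ E]

/-- `x` is a non-constant `T`-periodic solution of `x' = f(x)`, with `T > 0`. -/
structure PeriodicOrbit (f : E → E) (x : ℝ → E) (T : ℝ) : Prop where
  sol : ∀ t, HasDerivAt x (f (x t)) t
  per : ∀ t, x (t + T) = x t
  pos : 0 < T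
  nonconst : ∃ s t, x s ≠ x t

/-- The `T`-periodic solution `x` of `x' = f(x)` is hyperbolic: the Floquet multipliers (roots of
the characteristic polynomial of `Φ(T)`, where `Φ` is the fundamental solution with `Φ(0) = id` of
the variational equation along `x`) have modulus different from `1`, except for the multiplier `1`,
which is simple. -/
def Hyperbolic [FiniteDimensional ℝ E] (f : E → E) (x : ℝ → E) (T : ℝ) : Prop :=
  ∃ Φ : ℝ → E →L[ℝ] E, IsFund f x Φ ∧
    (Φ T : E →ₗ[ℝ] E).charpoly.rootMultiplicity 1 = 1 ∧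
    ∀ μ : ℂ, ((Φ T : E →ₗ[ℝ] E).charpoly.map (algebraMap ℝ ℂ)).IsRoot μ → ‖μ‖ = 1 → μ = 1

lemma bdd_per {x : ℝ → E} {T : ℝ} (hc : Continuous x) (hper : ∀ t, x (t + T) = x t)
    (hT : 0 < T) : ∃ B : ℝ, 0 ≤ B ∧ ∀ t, ‖x t‖ ≤ B := by
  have hp : Function.Periodic x T := hper
  obtain ⟨B, hB⟩ := (isCompact_Icc (a := (0:ℝ)) (b := 0 + T)).exists_bound_of_continuousOn
    hc.continuousOn
  have h : ∀ t, ‖x t‖ ≤ B := fun t => by
    obtain ⟨s, hs, hs2⟩ := hp.exists_mem_Ico₀ hT t
    rw [hs2]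
    exact hB s ⟨hs.1, by linarith [hs.2]⟩
  exact ⟨B, (norm_nonneg _).trans (h 0), h⟩

lemma PeriodicOrbit.perOrb [FiniteDimensional ℝ E] {f : E → E} (hf : ContDiff ℝ 1 f)
    {x : ℝ → E} {T : ℝ} (h : PeriodicOrbit f x T) : PerOrb f x T := by
  refine ⟨h.sol, h.per, h.pos, fun h0 => ?_⟩
  have hc : Continuous x := continuous_iff_continuousAt.2 fun t => (h.sol t).continuousAt
  obtain ⟨B, hB0, hB⟩ := bdd_per hc h.per h.pos
  obtain ⟨F, -, ⟨K, hK⟩, -, hF⟩ := exists_cut hf hB0
  have hFx : ∀ t, F (x t) = f (x t) := fun t => hF _ (by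
    rw [mem_ball_zero_iff]; linarith [hB t])
  have h1 : x = fun _ => x 0 := by
    refine ODE_solution_unique_univ (v := fun _ => F) (s := fun _ => univ) (K := K) (t₀ := 0)
      (fun t => hK.lipschitzOnWith) (fun t => ⟨?_, trivial⟩) (fun t => ⟨?_, trivial⟩) rfl
    · rw [hFx]; exact h.sol t
    · change HasDerivAt (fun _ => x 0) (F (x 0)) t
      rw [hFx, h0]; exact hasDerivAt_const _ _
  obtain ⟨s, t, hst⟩ := h.nonconst
  apply hst
  rw [h1]

lemma PerOrb.periodicOrbit {f : E → E} {x : ℝ → E} {T : ℝ} (h : PerOrb f x T) :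
    PeriodicOrbit f x T := by
  refine ⟨h.sol, h.per, h.pos, ?_⟩
  by_contra hn
  push Not at hn
  have h1 : x = fun _ => x 0 := funext fun t => hn t 0
  have h2 := h.sol 0
  have h3 : HasDerivAt x 0 0 := by
    rw [h1]; exact hasDerivAt_const _ _
  exact h.ne (h2.unique h3)

lemma Hyperbolic.nDeg [FiniteDimensional ℝ E] {f : E → E} (hf : ContDiff ℝ 1 f)
    {x : ℝ → E} {T : ℝ} (h : PerOrb f x T) (hh : Hyperbolic f x T) : NDeg f x T := by
  obtain ⟨Φ, hΦ, hm, -⟩ := hh
  refine ⟨Φ, hΦ, ?_⟩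
  set v := f (x 0) with hv
  have hv0 : v ≠ 0 := h.ne
  set A : Module.End ℝ E := (Φ T : E →ₗ[ℝ] E) with hA
  -- the velocity is a fixed vector
  have hfix : Φ T v = v := by
    have hcd : Continuous (fun t => fderiv ℝ f (x t)) :=
      (hf.continuous_fderiv one_ne_zero).comp h.continuous
    obtain ⟨K, hK⟩ := (isCompact_Icc (a := (0:ℝ)) (b := T)).exists_bound_of_continuousOn
      hcd.continuousOn
    have h1 := lin_zero (A := fun t => fderiv ℝ f (x t)) (K := K) (T := T) hK
      (w := fun t => Φ t v - f (x t)) (fun t _ => by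
        have h2 := (hf.differentiable one_ne_zero (x t)).hasFDerivAt.comp_hasDerivAt t (h.sol t)
        have h3 := (hΦ.2 v t).sub h2
        rw [← map_sub] at h3
        exact h3) (by
        change Φ 0 v - f (x 0) = 0
        rw [hΦ.1, hv, sub_self]) T ⟨h.pos.le, le_rfl⟩
    have h4 : x T = x 0 := by
      have := h.per 0
      rwa [zero_add] at this
    change Φ T v - f (x T) = 0 at h1
    rw [h4, ← hv, sub_eq_zero] at h1
    exact h1
  have hfix' : A v = v := hfix
  have hfr : Module.finrank ℝ (A.maxGenEigenspace 1) = 1 := by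
    rw [LinearMap.finrank_maxGenEigenspace_eq]; exact hm
  have hvm : v ∈ A.maxGenEigenspace 1 := by
    rw [Module.End.mem_maxGenEigenspace]
    refine ⟨1, ?_⟩
    rw [pow_one, one_smul, LinearMap.sub_apply, Module.End.one_apply, hfix', sub_self]
  have hspan : ∀ u ∈ A.maxGenEigenspace 1, ∃ c : ℝ, c • v = u := by
    intro u hu
    obtain ⟨c, hc⟩ := (finrank_eq_one_iff_of_nonzero' (⟨v, hvm⟩ : A.maxGenEigenspace 1)
      (fun h => hv0 (congrArg Subtype.val h))).1 hfr ⟨u, hu⟩
    exact ⟨c, congrArg Subtype.val hc⟩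
  obtain ⟨ℓ, hℓ⟩ : ∃ ℓ : E →L[ℝ] ℝ, ℓ v ≠ 0 := by
    obtain ⟨g, -, hg⟩ := exists_dual_vector ℝ v (norm_ne_zero_iff.2 hv0)
    exact ⟨g, by rw [hg]; simpa using hv0⟩
  refine ⟨ℓ, fun u s hus hu => ?_⟩
  have h1 : A u - u = -(s • v) := by
    rw [eq_neg_iff_add_eq_zero]; exact hus
  have hum : u ∈ A.maxGenEigenspace 1 := by
    rw [Module.End.mem_maxGenEigenspace]
    refine ⟨2, ?_⟩
    rw [pow_two, Module.End.mul_apply, one_smul]
    have h2 : (A - 1) u = -(s • v) := by
      rw [LinearMap.sub_apply, Module.End.one_apply]; exact h1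
    rw [h2, map_neg, map_smul, LinearMap.sub_apply, Module.End.one_apply, hfix', sub_self,
      smul_zero, neg_zero]
  obtain ⟨c, hc⟩ := hspan u hum
  have hc0 : c = 0 := by
    rw [← hc, map_smul, smul_eq_mul] at hu
    rcases mul_eq_zero.1 hu with h | h
    · exact h
    · exact absurd h hℓ
  have hu0 : u = 0 := by rw [← hc, hc0, zero_smul]
  refine ⟨hu0, ?_⟩
  rw [hu0, map_zero, sub_zero, zero_eq_neg] at h1
  exact (smul_eq_zero.1 h1).resolve_right hv0

end

end Pool.Agent.H446R3.RS
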