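import Pool.Agent.H446R3.RS.Max

set_option autoImplicit false
set_option linter.unusedSectionVars false
set_option linter.unusedVariables false
open Topology Filter Set MeasureTheory

namespace Pool.Agent.H446R3.RS

noncomputable section

variable {N : Network} {V : N.SType → Type} [∀ τ, NormedAddCommGroup (V τ)]
  [∀ τ, NormedSpace ℝ (V τ)] [∀ τ, FiniteDimensional ℝ (V τ)]

lemma bump_self (c : N.Node) (z : Ph N V) (n : ℕ) (w : V (N.sp c)) :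
    ‖w‖ ≤ ‖bump c (tup V (InputIso.refl c) z) (psi V c n) w z c‖ := by
  unfold bump
  have h1 : ∀ β : InputIso N c c, psi V c n (tup V β z - tup V (InputIso.refl c) z) •
      cst β.spq w = psi V c n (tup V β z - tup V (InputIso.refl c) z) • w := fun β => by
    rw [cst_self]
  rw [Finset.sum_congr rfl fun β _ => h1 β, ← Finset.sum_smul, norm_smul]
  have h2 : (1:ℝ) ≤ ∑ β : InputIso N c c,
      psi V c n (tup V β z - tup V (InputIso.refl c) z) := by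
    have h3 := Finset.single_le_sum
      (f := fun β : InputIso N c c => psi V c n (tup V β z - tup V (InputIso.refl c) z))
      (fun β _ => psi_nonneg c n _) (Finset.mem_univ (InputIso.refl c))
    simp only [sub_self, psi_zero] at h3
    exact h3
  rw [Real.norm_eq_abs]
  exact le_mul_of_one_le_left (norm_nonneg _) (h2.trans (le_abs_self _))

variable {f f₁ : Ph N V → Ph N V} {x x₁ : ℝ → Ph N V} {T δ T₁ t₀ : ℝ}

lemma getFam (hM : IsMx f x T δ f₁ x₁ T₁ t₀) :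
    ∃ C : ℝ, 0 ≤ C ∧ ∀ g : Ph N V → Ph N V, Pert g → ∃ y τ ζ, Fam f₁ x₁ T₁ g t₀ y τ ζ ∧
      ‖ζ‖ ≤ C * ∫ s in (0:ℝ)..T₁, ‖g (x₁ s)‖ := by
  obtain ⟨C, hC0, hC⟩ := persist hM.cls.adm.smooth hM.cls.orb hM.cls.nd
    (Ioo_subset_Icc_self hM.mem)
  refine ⟨C, hC0, fun g hg => ?_⟩
  obtain ⟨y, τ, h1, h2, h3, h4, h5, ζ, h6, h7⟩ := hC g hg.smooth hg.lip hg.bdd
  exact ⟨y, τ, ζ, ⟨h1, h2, h3, h4, h5, h6⟩, h7⟩

lemma not_null_of_rest [∀ τ, Nontrivial (V τ)] (hx : Continuous x)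
    (hM : IsMx f x T δ f₁ x₁ T₁ t₀) (hf : ContDiff ℝ 1 f)
    (c : N.Node) (hc : f₁ (x₁ t₀) c = 0) :
    ¬ NullHit x₁ T₁ c (tup V (InputIso.refl c) (x₁ t₀)) := by
  intro hnull
  obtain ⟨C, hC0, hC⟩ := getFam hM
  obtain ⟨w, hw⟩ := exists_ne (0 : V (N.sp c))
  have hlim := integral_bump hM.cls.orb.continuous hnull w
  have h1 : ∀ n : ℕ, ‖w‖ ≤ ‖fderiv ℝ f₁ (x₁ t₀)‖ * (C * ∫ s in (0:ℝ)..T₁,
      ‖bump c (tup V (InputIso.refl c) (x₁ t₀)) (psi V c n) w (x₁ s)‖) := by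
    intro n
    obtain ⟨y, τ, ζ, hF, hζ⟩ := hC _ (psi_pert c n (tup V (InputIso.refl c) (x₁ t₀)) w)
    have h2 := rel_zero hx hM (psi_pert c n _ w) hF hf c hc
    have h3 := bump_self c (x₁ t₀) n w
    have h4 : ‖bump c (tup V (InputIso.refl c) (x₁ t₀)) (psi V c n) w (x₁ t₀) c‖ =
        ‖fderiv ℝ f₁ (x₁ t₀) ζ c‖ := by rw [h2, norm_neg]
    rw [h4] at h3
    refine h3.trans ((norm_le_pi_norm _ c).trans ((ContinuousLinearMap.le_opNorm _ _).trans ?_))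
    exact mul_le_mul_of_nonneg_left hζ (norm_nonneg _)
  have h2 := (hlim.const_mul C).const_mul ‖fderiv ℝ f₁ (x₁ t₀)‖
  simp only [mul_zero] at h2
  have h3 := ge_of_tendsto' h2 h1
  exact hw (norm_le_zero_iff.1 h3)

lemma match_of_null [∀ τ, Nontrivial (V τ)] (hx : Continuous x)
    (hM : IsMx f x T δ f₁ x₁ T₁ t₀) (hf : ContDiff ℝ 1 f)
    (c b : N.Node) (hcb : st (x₁ t₀) c = st (x₁ t₀) b)
    (hnull : NullHit x₁ T₁ c (tup V (InputIso.refl c) (x₁ t₀))) : Match (x₁ t₀) c b := by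
  by_contra hnm
  have hno : ∀ β : InputIso N c b, tup V β (x₁ t₀) ≠ tup V (InputIso.refl c) (x₁ t₀) := by
    intro β h
    rw [tup_eq_iff] at h
    exact hnm ⟨β, fun e => (h.2 e).symm⟩
  obtain ⟨h, hh⟩ := st_iff.1 hcb
  obtain ⟨C, hC0, hC⟩ := getFam hM
  obtain ⟨w, hw⟩ := exists_ne (0 : V (N.sp c))
  have hlim := integral_bump hM.cls.orb.continuous hnull w
  have h1 : ∀ᶠ n : ℕ in atTop, ‖w‖ ≤ 2 * (‖fderiv ℝ f₁ (x₁ t₀)‖ * (C * ∫ s in (0:ℝ)..T₁,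
      ‖bump c (tup V (InputIso.refl c) (x₁ t₀)) (psi V c n) w (x₁ s)‖)) := by
    filter_upwards [bump_eventually_zero c (tup V (InputIso.refl c) (x₁ t₀)) w (x₁ t₀) b hno]
      with n hn
    obtain ⟨y, τ, ζ, hF, hζ⟩ := hC _ (psi_pert c n (tup V (InputIso.refl c) (x₁ t₀)) w)
    have h2 := (rel_pair hx hM (psi_pert c n _ w) hF hf c b h hcb).2
    rw [hn, sub_zero] at h2
    have h3 := bump_self c (x₁ t₀) n w
    have h8 : ‖bump c (tup V (InputIso.refl c) (x₁ t₀)) (psi V c n) w (x₁ t₀) c‖ =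
        ‖cst h (fderiv ℝ f₁ (x₁ t₀) ζ c) - fderiv ℝ f₁ (x₁ t₀) ζ b‖ := by
      rw [h2, norm_neg, norm_cst]
    rw [h8] at h3
    have h4 : ‖fderiv ℝ f₁ (x₁ t₀) ζ‖ ≤ ‖fderiv ℝ f₁ (x₁ t₀)‖ * (C * ∫ s in (0:ℝ)..T₁,
      ‖bump c (tup V (InputIso.refl c) (x₁ t₀)) (psi V c n) w (x₁ s)‖) :=
      (ContinuousLinearMap.le_opNorm _ _).trans (mul_le_mul_of_nonneg_left hζ (norm_nonneg _))
    have h5 := norm_le_pi_norm (fderiv ℝ f₁ (x₁ t₀) ζ) c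
    have h6 := norm_le_pi_norm (fderiv ℝ f₁ (x₁ t₀) ζ) b
    have h7 := norm_sub_le (cst h (fderiv ℝ f₁ (x₁ t₀) ζ c)) (fderiv ℝ f₁ (x₁ t₀) ζ b)
    rw [norm_cst] at h7
    linarith
  have h2 := ((hlim.const_mul C).const_mul ‖fderiv ℝ f₁ (x₁ t₀)‖).const_mul 2
  simp only [mul_zero] at h2
  have h3 := ge_of_tendsto h2 h1
  exact hw (norm_le_zero_iff.1 h3)

lemma cnt_congr {z z' : Ph N V} {f f' : Ph N V → Ph N V}
    (h1 : ∀ a b, st z' a = st z' b ↔ st z a = st z b)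
    (h2 : ∀ e, f' z' e = 0 ↔ f z e = 0) : cnt f' z' = cnt f z := by
  classical
  unfold cnt
  congr 2
  · ext p
    simp only [Finset.mem_filter, Finset.mem_univ, true_and]
    exact not_iff_not.2 (h1 _ _)
  · ext e
    simp only [Finset.mem_filter, Finset.mem_univ, true_and]
    exact not_iff_not.2 (h2 _)

lemma near_max (hx : Continuous x) (hM : IsMx f x T δ f₁ x₁ T₁ t₀) (hf : ContDiff ℝ 1 f) :
    ∃ η > 0, ∀ t ∈ Ioo (t₀ - η) (t₀ + η), IsMx f x T δ f₁ x₁ T₁ t ∧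
      (∀ a b, st (x₁ t) a = st (x₁ t) b ↔ st (x₁ t₀) a = st (x₁ t₀) b) ∧
      (∀ e, f₁ (x₁ t) e = 0 ↔ f₁ (x₁ t₀) e = 0) := by
  obtain ⟨C, hC0, hC⟩ := getFam hM
  obtain ⟨y, τ, ζ, hF, hζ⟩ := hC _ pert_zero
  have hp := perturb hx hM pert_zero hF hf
  have h2 : Tendsto (fun t : ℝ => ((0:ℝ), t)) (𝓝 t₀) (𝓝 (0, t₀)) :=
    (continuous_const.prodMk continuous_id).tendsto t₀
  have h3 : ∀ᶠ t in 𝓝 t₀, IsMx f x T δ f₁ x₁ T₁ t ∧
      (∀ a b, st (x₁ t) a = st (x₁ t) b ↔ st (x₁ t₀) a = st (x₁ t₀) b) ∧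
      (∀ e, f₁ (x₁ t) e = 0 ↔ f₁ (x₁ t₀) e = 0) := by
    filter_upwards [h2.eventually hp, Ioo_mem_nhds hM.mem.1 hM.mem.2] with t h4 h5
    have h6 := h4.2.1
    have h7 := h4.2.2
    simp only [hF.y0, smul_zero, add_zero] at h6 h7
    refine ⟨⟨hM.cls, h5, fun f'' x'' T'' t'' h8 h9 => ?_⟩, h6, h7⟩
    rw [cnt_congr h6 h7]
    exact hM.max _ _ _ _ h8 h9
  obtain ⟨η, hη, h4⟩ := Metric.eventually_nhds_iff_ball.1 h3
  refine ⟨η, hη, fun t ht => h4 t ?_⟩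
  rw [Real.ball_eq_Ioo]
  exact ht

lemma rest_of_not_null {η : ℝ} (hη : 0 < η) (ho : PerOrb f₁ x₁ T₁) (c : N.Node)
    (h : ∀ t ∈ Ioo (t₀ - η) (t₀ + η), ¬ NullHit x₁ T₁ c (tup V (InputIso.refl c) (x₁ t))) :
    f₁ (x₁ t₀) c = 0 ∧ ∀ e : N.In c, f₁ (x₁ t₀) (N.tail e.1) = 0 := by
  have hc := const_of_not_null ho.continuous isPreconnected_Ioo h
  have ht₀ : t₀ ∈ Ioo (t₀ - η) (t₀ + η) := ⟨by linarith, by linarith⟩
  have hev : ∀ᶠ t in 𝓝 t₀, t ∈ Ioo (t₀ - η) (t₀ + η) := Ioo_mem_nhds ht₀.1 ht₀.2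
  have key : ∀ d : N.Node, (∀ t ∈ Ioo (t₀ - η) (t₀ + η), x₁ t d = x₁ t₀ d) →
      f₁ (x₁ t₀) d = 0 := by
    intro d hd
    have d1 := (hasDerivAt_pi.1 (ho.sol t₀)) d
    have d2 : HasDerivAt (fun _ : ℝ => x₁ t₀ d) 0 t₀ := hasDerivAt_const _ _
    have d3 := d2.congr_of_eventuallyEq (f₁ := fun t => x₁ t d) (hev.mono hd)
    exact d1.unique d3
  constructor
  · refine key c fun t ht => ?_
    have h1 := hc t ht t₀ ht₀
    have h2 := congrArg Prod.fst h1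
    exact h2
  · intro e
    refine key _ fun t ht => ?_
    have h1 := hc t ht t₀ ht₀
    have h2 := congrFun (congrArg Prod.snd h1) e
    exact h2

/-- nodes at rest have inputs at rest -/
lemma rest_closed [∀ τ, Nontrivial (V τ)] (hx : Continuous x)
    (hM : IsMx f x T δ f₁ x₁ T₁ t₀) (hf : ContDiff ℝ 1 f) (c : N.Node)
    (hc : f₁ (x₁ t₀) c = 0) (e : N.In c) : f₁ (x₁ t₀) (N.tail e.1) = 0 := by
  obtain ⟨η, hη, h⟩ := near_max hx hM hf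
  refine (rest_of_not_null hη hM.cls.orb c fun t ht => ?_).2 e
  obtain ⟨h1, h2, h3⟩ := h t ht
  exact not_null_of_rest hx h1 hf c ((h3 c).2 hc)

/-- equal states have matching inputs, or are at rest -/
lemma match_or_rest [∀ τ, Nontrivial (V τ)] (hx : Continuous x)
    (hM : IsMx f x T δ f₁ x₁ T₁ t₀) (hf : ContDiff ℝ 1 f) (a b : N.Node)
    (hab : st (x₁ t₀) a = st (x₁ t₀) b) : Match (x₁ t₀) a b ∨ f₁ (x₁ t₀) a = 0 := by
  obtain ⟨η, hη, h⟩ := near_max hx hM hf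
  by_cases hall : ∀ t ∈ Ioo (t₀ - η) (t₀ + η),
      ¬ NullHit x₁ T₁ a (tup V (InputIso.refl a) (x₁ t))
  · exact Or.inr (rest_of_not_null hη hM.cls.orb a hall).1
  · push Not at hall
    obtain ⟨t, ht, hn⟩ := hall
    obtain ⟨h1, h2, h3⟩ := h t ht
    obtain ⟨β, hβ⟩ := match_of_null hx h1 hf a b ((h2 a b).2 hab) hn
    exact Or.inl ⟨β, fun e => (h2 _ _).1 (hβ e)⟩

/-- velocities of equal states are equal -/
lemma vel_eq (hx : Continuous x)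
    (hM : IsMx f x T δ f₁ x₁ T₁ t₀) (hf : ContDiff ℝ 1 f) (a b : N.Node)
    (hab : st (x₁ t₀) a = st (x₁ t₀) b) : st (f₁ (x₁ t₀)) a = st (f₁ (x₁ t₀)) b := by
  obtain ⟨η, hη, h⟩ := near_max hx hM hf
  obtain ⟨h', hh⟩ := st_iff.1 hab
  have ht₀ : t₀ ∈ Ioo (t₀ - η) (t₀ + η) := ⟨by linarith, by linarith⟩
  have hev : ∀ᶠ t in 𝓝 t₀, cst h' (x₁ t a) = x₁ t b := by
    filter_upwards [Ioo_mem_nhds ht₀.1 ht₀.2] with t ht
    exact (st_of h').1 (((h t ht).2.1 a b).2 hab)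
  have d1 := (hasDerivAt_pi.1 (hM.cls.orb.sol t₀)) a
  have d2 := (hasDerivAt_pi.1 (hM.cls.orb.sol t₀)) b
  have d3 := (cst (V := V) h').hasFDerivAt.comp_hasDerivAt t₀ d1
  rw [st_of h']
  exact (d2.unique (d3.congr_of_eventuallyEq (hev.mono fun ε h => h.symm))).symm

end

end Pool.Agent.H446R3.RS
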