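import Pool.Agent.H446R3.RS.Bump

set_option autoImplicit false
open Topology Filter Set MeasureTheory

namespace Pool.Agent.H446R3.RS

noncomputable section

variable {N : Network} {V : N.SType → Type} [∀ τ, NormedAddCommGroup (V τ)]
  [∀ τ, NormedSpace ℝ (V τ)]

open Classical in
/-- number of separated pairs of nodes plus number of moving nodes -/
def cnt (f : Ph N V → Ph N V) (z : Ph N V) : ℕ :=
  (Finset.univ.filter fun p : N.Node × N.Node => st z p.1 ≠ st z p.2).card +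
  (Finset.univ.filter fun e : N.Node => f z e ≠ 0).card

omit [∀ τ, NormedSpace ℝ (V τ)] in
lemma cnt_le (f : Ph N V → Ph N V) (z : Ph N V) :
    cnt f z ≤ Fintype.card (N.Node × N.Node) + Fintype.card N.Node :=
  add_le_add (Finset.card_le_univ _) (Finset.card_le_univ _)

lemma cnt_rigid {f f' : Ph N V → Ph N V} {z z' : Ph N V}
    (h1 : ∀ a b, st z a ≠ st z b → st z' a ≠ st z' b) (h2 : ∀ e, f z e ≠ 0 → f' z' e ≠ 0)
    (h3 : cnt f' z' ≤ cnt f z) :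
    (∀ a b, st z' a = st z' b ↔ st z a = st z b) ∧ (∀ e, f' z' e = 0 ↔ f z e = 0) := by
  classical
  have s1 : (Finset.univ.filter fun p : N.Node × N.Node => st z p.1 ≠ st z p.2) ⊆
      (Finset.univ.filter fun p : N.Node × N.Node => st z' p.1 ≠ st z' p.2) := by
    intro p hp
    simp only [Finset.mem_filter, Finset.mem_univ, true_and] at hp ⊢
    exact h1 _ _ hp
  have s2 : (Finset.univ.filter fun e : N.Node => f z e ≠ 0) ⊆
      (Finset.univ.filter fun e : N.Node => f' z' e ≠ 0) := by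
    intro p hp
    simp only [Finset.mem_filter, Finset.mem_univ, true_and] at hp ⊢
    exact h2 _ hp
  have c1 := Finset.card_le_card s1
  have c2 := Finset.card_le_card s2
  unfold cnt at h3
  have e1 := Finset.eq_of_subset_of_card_le s1 (by omega)
  have e2 := Finset.eq_of_subset_of_card_le s2 (by omega)
  constructor
  · intro a b
    have := Finset.ext_iff.1 e1 (a, b)
    simp only [Finset.mem_filter, Finset.mem_univ, true_and] at this
    exact (not_iff_not.1 this).symm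
  · intro e
    have := Finset.ext_iff.1 e2 e
    simp only [Finset.mem_filter, Finset.mem_univ, true_and] at this
    exact (not_iff_not.1 this).symm

/-- the class of small deformations of a periodic orbit -/
structure Cls (f : Ph N V → Ph N V) (x : ℝ → Ph N V) (T δ : ℝ)
    (f' : Ph N V → Ph N V) (x' : ℝ → Ph N V) (T' : ℝ) : Prop where
  adm : Admissible f'
  near : ∃ δ' < δ, ∀ z, ‖f' z - f z‖ ≤ δ' ∧ ‖fderiv ℝ f' z - fderiv ℝ f z‖ ≤ δ'
  orb : PerOrb f' x' T'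
  nd : NDeg f' x' T'
  per : |T' - T| < δ
  close : ∀ t ∈ Icc 0 T, ‖x' t - x t‖ < δ

/-- maximisers of the count -/
structure IsMx (f : Ph N V → Ph N V) (x : ℝ → Ph N V) (T δ : ℝ)
    (f' : Ph N V → Ph N V) (x' : ℝ → Ph N V) (T' t' : ℝ) : Prop where
  cls : Cls f x T δ f' x' T'
  mem : t' ∈ Ioo 0 T'
  max : ∀ f'' x'' T'' t'', Cls f x T δ f'' x'' T'' → t'' ∈ Ioo 0 T'' →
    cnt f'' (x'' t'') ≤ cnt f' (x' t')

lemma exists_max {f : Ph N V → Ph N V} {x : ℝ → Ph N V} {T δ : ℝ} (h : Cls f x T δ f x T) :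
    ∃ f' x' T' t', IsMx f x T δ f' x' T' t' := by
  classical
  let P : ℕ → Prop := fun n => ∃ f' x' T' t', Cls f x T δ f' x' T' ∧ t' ∈ Ioo 0 T' ∧
    cnt f' (x' t') = n
  have hP : P (cnt f (x (T / 2))) := ⟨f, x, T, T / 2, h, ⟨by linarith [h.orb.pos],
    by linarith [h.orb.pos]⟩, rfl⟩
  have h1 := Nat.findGreatest_spec (P := P) (cnt_le f (x (T / 2))) hP
  obtain ⟨f', x', T', t', h2, h3, h4⟩ := h1
  refine ⟨f', x', T', t', h2, h3, fun f'' x'' T'' t'' h5 h6 => ?_⟩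
  rw [h4]
  exact Nat.le_findGreatest (cnt_le _ _) ⟨f'', x'', T'', t'', h5, h6, rfl⟩

/-- a perturbed family of periodic orbits -/
structure Fam (f : Ph N V → Ph N V) (x : ℝ → Ph N V) (T : ℝ) (g : Ph N V → Ph N V) (t₀ : ℝ)
    (y : ℝ → ℝ → Ph N V) (τ : ℝ → ℝ) (ζ : Ph N V) : Prop where
  y0 : y 0 = x
  τ0 : τ 0 = T
  τc : ContinuousAt τ 0
  yc : ∀ t, ContinuousAt (fun p : ℝ × ℝ => y p.1 p.2) (0, t)
  orb : ∀ᶠ ε in 𝓝 (0:ℝ), PerOrb (fun z => f z + ε • g z) (y ε) (τ ε) ∧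
          NDeg (fun z => f z + ε • g z) (y ε) (τ ε)
  dζ : HasDerivAt (fun ε => y ε t₀) ζ 0

section

variable {f f₁ : Ph N V → Ph N V} {x x₁ : ℝ → Ph N V} {T δ T₁ t₀ : ℝ} {g : Ph N V → Ph N V}
  {y : ℝ → ℝ → Ph N V} {τ : ℝ → ℝ} {ζ : Ph N V}

lemma perturb (hx : Continuous x) (hM : IsMx f x T δ f₁ x₁ T₁ t₀) (hg : Pert g)
    (hF : Fam f₁ x₁ T₁ g t₀ y τ ζ) (hf : ContDiff ℝ 1 f) :
    ∀ᶠ p : ℝ × ℝ in 𝓝 ((0:ℝ), t₀),
      (PerOrb (fun z => f₁ z + p.1 • g z) (y p.1) (τ p.1)) ∧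
      (∀ a b, st (y p.1 p.2) a = st (y p.1 p.2) b ↔ st (x₁ t₀) a = st (x₁ t₀) b) ∧
      (∀ e, (f₁ (y p.1 p.2) + p.1 • g (y p.1 p.2)) e = 0 ↔ f₁ (x₁ t₀) e = 0) := by
  have hy0 : y 0 t₀ = x₁ t₀ := by rw [hF.y0]
  have e1 : ∀ᶠ p : ℝ × ℝ in 𝓝 ((0:ℝ), t₀), ∀ a b, st (x₁ t₀) a ≠ st (x₁ t₀) b →
      st (y p.1 p.2) a ≠ st (y p.1 p.2) b := by
    rw [eventually_all]; intro a
    rw [eventually_all]; intro b
    by_cases h : st (x₁ t₀) a = st (x₁ t₀) b
    · exact Eventually.of_forall fun p h2 => absurd h h2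
    · have h1 : {z : Ph N V | st z a = st z b}ᶜ ∈ 𝓝 (y 0 t₀) := by
        rw [hy0]
        exact (isClosed_st a b).isOpen_compl.mem_nhds h
      filter_upwards [(hF.yc t₀).eventually_mem h1] with p hp _
      exact hp
  have hcg : ContinuousAt (fun p : ℝ × ℝ => f₁ (y p.1 p.2) + p.1 • g (y p.1 p.2)) (0, t₀) := by
    have a1 : ContinuousAt (fun p : ℝ × ℝ => f₁ (y p.1 p.2)) (0, t₀) :=
      ContinuousAt.comp (f := fun p : ℝ × ℝ => y p.1 p.2) (g := f₁) (x := (0, t₀))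
        hM.cls.adm.smooth.continuous.continuousAt (hF.yc t₀)
    have a2 : ContinuousAt (fun p : ℝ × ℝ => g (y p.1 p.2)) (0, t₀) :=
      ContinuousAt.comp (f := fun p : ℝ × ℝ => y p.1 p.2) (g := g) (x := (0, t₀))
        hg.smooth.continuous.continuousAt (hF.yc t₀)
    exact a1.add (continuousAt_fst.smul a2)
  have e2 : ∀ᶠ p : ℝ × ℝ in 𝓝 ((0:ℝ), t₀), ∀ e, f₁ (x₁ t₀) e ≠ 0 →
      (f₁ (y p.1 p.2) + p.1 • g (y p.1 p.2)) e ≠ 0 := by
    rw [eventually_all]; intro e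
    by_cases h : f₁ (x₁ t₀) e = 0
    · exact Eventually.of_forall fun p h2 => absurd h h2
    · have h1 : ContinuousAt (fun p : ℝ × ℝ =>
          (f₁ (y p.1 p.2) + p.1 • g (y p.1 p.2)) e) (0, t₀) :=
        (continuous_apply e).continuousAt.comp hcg
      have h3 : (f₁ (y 0 t₀) + (0:ℝ) • g (y 0 t₀)) e ≠ 0 := by
        rw [hy0, zero_smul, add_zero]; exact h
      have h2 := h1.eventually_ne h3
      filter_upwards [h2] with p hp _
      exact hp
  have e3 : ∀ᶠ p : ℝ × ℝ in 𝓝 ((0:ℝ), t₀), p.2 ∈ Ioo 0 (τ p.1) := by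
    have h1 : ContinuousAt (fun p : ℝ × ℝ => τ p.1 - p.2) (0, t₀) := by
      refine ContinuousAt.sub ?_ continuousAt_snd
      exact ContinuousAt.comp (f := fun p : ℝ × ℝ => p.1) (g := τ) (x := (0, t₀)) hF.τc
        continuousAt_fst
    have h2 : ∀ᶠ p : ℝ × ℝ in 𝓝 ((0:ℝ), t₀), 0 < τ p.1 - p.2 := by
      refine h1.eventually (lt_mem_nhds ?_)
      simp only [hF.τ0]
      linarith [hM.mem.2]
    have h3 : ∀ᶠ p : ℝ × ℝ in 𝓝 ((0:ℝ), t₀), 0 < p.2 :=
      (continuousAt_snd (p := ((0:ℝ), t₀))).eventually (lt_mem_nhds hM.mem.1)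
    filter_upwards [h2, h3] with p h4 h5
    exact ⟨h5, by linarith⟩
  have e4' : ∀ᶠ ε : ℝ in 𝓝 (0:ℝ), Cls f x T δ (fun z => f₁ z + ε • g z) (y ε) (τ ε) := by
    obtain ⟨δ', hδ', hn⟩ := hM.cls.near
    obtain ⟨Kg, hKg⟩ := hg.lip
    obtain ⟨B, hB⟩ := hg.bdd
    have k1 : ∀ᶠ ε : ℝ in 𝓝 (0:ℝ), |ε| * (B + Kg) < (δ - δ') / 2 := by
      have h1 : Tendsto (fun ε : ℝ => |ε| * ((B:ℝ) + Kg)) (𝓝 0) (𝓝 (|(0:ℝ)| * (B + Kg))) :=
        (continuous_abs.mul continuous_const).tendsto 0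
      rw [abs_zero, zero_mul] at h1
      exact h1.eventually (gt_mem_nhds (by linarith))
    have k2 : ∀ᶠ ε : ℝ in 𝓝 (0:ℝ), |τ ε - T| < δ := by
      have h1 : ContinuousAt (fun ε => |τ ε - T|) 0 := (hF.τc.sub continuousAt_const).abs
      refine h1.eventually (gt_mem_nhds ?_)
      simp only [hF.τ0]
      exact hM.cls.per
    have k3 : ∀ᶠ ε : ℝ in 𝓝 (0:ℝ), ∀ t ∈ Icc 0 T, ‖y ε t - x t‖ < δ := by
      refine (isCompact_Icc (a := 0) (b := T)).eventually_forall_of_forall_eventually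
        (P := fun ε t => ‖y ε t - x t‖ < δ) ?_
      intro t ht
      have h1 : ContinuousAt (fun p : ℝ × ℝ => ‖y p.1 p.2 - x p.2‖) (0, t) :=
        ((hF.yc t).sub (hx.continuousAt.comp continuousAt_snd)).norm
      refine h1.eventually (gt_mem_nhds ?_)
      simp only [hF.y0]
      exact hM.cls.close t ht
    filter_upwards [k1, k2, k3, hF.orb] with ε h1 h2 h3 h4
    refine ⟨hM.cls.adm.add_smul hg ε, ⟨(δ + δ') / 2, by linarith, fun z => ⟨?_, ?_⟩⟩, h4.1,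
      h4.2, h2, h3⟩
    · have a1 : f₁ z + ε • g z - f z = (f₁ z - f z) + ε • g z := by abel
      rw [a1]
      have a2 : ‖ε • g z‖ ≤ |ε| * B := by
        rw [norm_smul, Real.norm_eq_abs]
        exact mul_le_mul_of_nonneg_left (hB z) (abs_nonneg _)
      have a3 : 0 ≤ |ε| * Kg := mul_nonneg (abs_nonneg _) Kg.2
      have a4 := norm_add_le (f₁ z - f z) (ε • g z)
      have a5 := (hn z).1
      nlinarith
    · have d1 := (hM.cls.adm.smooth.differentiable one_ne_zero z).hasFDerivAt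
      have d2 := ((hg.smooth.differentiable one_ne_zero z).hasFDerivAt).const_smul ε
      have a1 : fderiv ℝ (fun z => f₁ z + ε • g z) z - fderiv ℝ f z =
          (fderiv ℝ f₁ z - fderiv ℝ f z) + ε • fderiv ℝ g z := by
        have : fderiv ℝ (fun z => f₁ z + ε • g z) z = fderiv ℝ f₁ z + ε • fderiv ℝ g z :=
          (d1.add d2).fderiv
        rw [this]; abel
      rw [a1]
      have a2 : ‖ε • fderiv ℝ g z‖ ≤ |ε| * Kg := by
        rw [norm_smul, Real.norm_eq_abs]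
        exact mul_le_mul_of_nonneg_left (norm_fderiv_le_of_lipschitz ℝ hKg) (abs_nonneg _)
      have a3 : 0 ≤ |ε| * B := mul_nonneg (abs_nonneg _) B.2
      have a4 := norm_add_le (fderiv ℝ f₁ z - fderiv ℝ f z) (ε • fderiv ℝ g z)
      have a5 := (hn z).2
      nlinarith
  have e4 : ∀ᶠ p : ℝ × ℝ in 𝓝 ((0:ℝ), t₀),
      Cls f x T δ (fun z => f₁ z + p.1 • g z) (y p.1) (τ p.1) :=
    (continuousAt_fst (p := ((0:ℝ), t₀))).eventually e4'
  filter_upwards [e1, e2, e3, e4] with p h1 h2 h3 h4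
  have h5 := hM.max _ _ _ _ h4 h3
  obtain ⟨h6, h7⟩ := cnt_rigid (f := f₁) (f' := fun z => f₁ z + p.1 • g z) h1 h2 h5
  exact ⟨h4.orb, h6, h7⟩

lemma rel_zero (hx : Continuous x) (hM : IsMx f x T δ f₁ x₁ T₁ t₀) (hg : Pert g)
    (hF : Fam f₁ x₁ T₁ g t₀ y τ ζ) (hf : ContDiff ℝ 1 f) (e : N.Node)
    (he : f₁ (x₁ t₀) e = 0) : fderiv ℝ f₁ (x₁ t₀) ζ e = - g (x₁ t₀) e := by
  have hp := perturb hx hM hg hF hf
  have h1 : ∀ᶠ ε : ℝ in 𝓝 (0:ℝ), (f₁ (y ε t₀) + ε • g (y ε t₀)) e = 0 := by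
    have h2 : Tendsto (fun ε : ℝ => (ε, t₀)) (𝓝 0) (𝓝 (0, t₀)) :=
      (continuous_id.prodMk continuous_const).tendsto 0
    filter_upwards [h2.eventually hp] with ε h3
    exact (h3.2.2 e).2 he
  have hy0 : y 0 t₀ = x₁ t₀ := by rw [hF.y0]
  have d1 : HasDerivAt (fun ε => f₁ (y ε t₀)) (fderiv ℝ f₁ (x₁ t₀) ζ) 0 := by
    have := (hM.cls.adm.smooth.differentiable one_ne_zero (y 0 t₀)).hasFDerivAt
    have h2 := this.comp_hasDerivAt (0:ℝ) hF.dζ
    rw [hy0] at h2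
    exact h2
  have d2 : HasDerivAt (fun ε => g (y ε t₀)) (fderiv ℝ g (x₁ t₀) ζ) 0 := by
    have := (hg.smooth.differentiable one_ne_zero (y 0 t₀)).hasFDerivAt
    have h2 := this.comp_hasDerivAt (0:ℝ) hF.dζ
    rw [hy0] at h2
    exact h2
  have d3 := d1.add ((hasDerivAt_id (0:ℝ)).smul d2)
  simp only [id, zero_smul, one_smul, zero_add, hy0] at d3
  have d4 := (hasDerivAt_pi.1 d3) e
  have d5 : HasDerivAt (fun _ : ℝ => (0 : V (N.sp e))) 0 0 := hasDerivAt_const _ _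
  have d6 := d5.congr_of_eventuallyEq (f₁ := fun ε : ℝ => (f₁ (y ε t₀) + ε • g (y ε t₀)) e) h1
  have d7 := d4.unique d6
  simp only [Pi.add_apply] at d7
  exact eq_neg_of_add_eq_zero_left d7

lemma rel_pair (hx : Continuous x) (hM : IsMx f x T δ f₁ x₁ T₁ t₀) (hg : Pert g)
    (hF : Fam f₁ x₁ T₁ g t₀ y τ ζ) (hf : ContDiff ℝ 1 f) (a b : N.Node)
    (h : N.sp a = N.sp b) (hab : st (x₁ t₀) a = st (x₁ t₀) b) :
    cst h (ζ a) = ζ b ∧
    cst h (fderiv ℝ f₁ (x₁ t₀) ζ a) - fderiv ℝ f₁ (x₁ t₀) ζ b =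
      - (cst h (g (x₁ t₀) a) - g (x₁ t₀) b) := by
  have hp := perturb hx hM hg hF hf
  have hy0 : y 0 t₀ = x₁ t₀ := by rw [hF.y0]
  constructor
  · have h1 : ∀ᶠ ε : ℝ in 𝓝 (0:ℝ), cst h (y ε t₀ a) = y ε t₀ b := by
      have h2 : Tendsto (fun ε : ℝ => (ε, t₀)) (𝓝 0) (𝓝 (0, t₀)) :=
        (continuous_id.prodMk continuous_const).tendsto 0
      filter_upwards [h2.eventually hp] with ε h3
      exact (st_of h).1 ((h3.2.1 a b).2 hab)
    have d1 := (hasDerivAt_pi.1 hF.dζ) a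
    have d2 := (hasDerivAt_pi.1 hF.dζ) b
    have d3 := (cst (V := V) h).hasFDerivAt.comp_hasDerivAt (0:ℝ) d1
    exact (d2.unique (d3.congr_of_eventuallyEq (h1.mono fun ε h => h.symm))).symm
  · have h1 : ∀ᶠ ε : ℝ in 𝓝 (0:ℝ), cst h ((f₁ (y ε t₀) + ε • g (y ε t₀)) a) =
        (f₁ (y ε t₀) + ε • g (y ε t₀)) b := by
      rw [nhds_prod_eq] at hp
      filter_upwards [hp.curry] with ε h3
      have h4 := h3.self_of_nhds.1
      have h5 : ∀ᶠ t in 𝓝 t₀, cst h (y ε t a) = y ε t b :=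
        h3.mono fun t h6 => (st_of h).1 ((h6.2.1 a b).2 hab)
      have d1 := (hasDerivAt_pi.1 (h4.sol t₀)) a
      have d2 := (hasDerivAt_pi.1 (h4.sol t₀)) b
      have d3 := (cst (V := V) h).hasFDerivAt.comp_hasDerivAt t₀ d1
      exact (d2.unique (d3.congr_of_eventuallyEq (h5.mono fun ε h => h.symm))).symm
    have d1 : HasDerivAt (fun ε => f₁ (y ε t₀)) (fderiv ℝ f₁ (x₁ t₀) ζ) 0 := by
      have := (hM.cls.adm.smooth.differentiable one_ne_zero (y 0 t₀)).hasFDerivAt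
      have h2 := this.comp_hasDerivAt (0:ℝ) hF.dζ
      rw [hy0] at h2
      exact h2
    have d2 : HasDerivAt (fun ε => g (y ε t₀)) (fderiv ℝ g (x₁ t₀) ζ) 0 := by
      have := (hg.smooth.differentiable one_ne_zero (y 0 t₀)).hasFDerivAt
      have h2 := this.comp_hasDerivAt (0:ℝ) hF.dζ
      rw [hy0] at h2
      exact h2
    have d3 := d1.add ((hasDerivAt_id (0:ℝ)).smul d2)
    simp only [id, zero_smul, one_smul, zero_add, hy0] at d3
    have da := (hasDerivAt_pi.1 d3) a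
    have db := (hasDerivAt_pi.1 d3) b
    have dc := (cst (V := V) h).hasFDerivAt.comp_hasDerivAt (0:ℝ) da
    have dd := db.unique (dc.congr_of_eventuallyEq (h1.mono fun ε h => h.symm))
    simp only [Pi.add_apply, map_add] at dd
    rw [neg_sub, sub_eq_sub_iff_add_eq_add, ← dd]
    abel

end

end

end Pool.Agent.H446R3.RS
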