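import Pool.Agent.H446R3.RS.Ext

set_option autoImplicit false
open Topology Filter Set MeasureTheory
open Pool.Agent.GR.Flow

namespace Pool.Agent.H446R3.RS

noncomputable section

variable {E : Type} [NormedAddCommGroup E] [NormedSpace ℝ E]

lemma fderiv_snd [CompleteSpace E] {F g : E → E} {θ : ℝ → ℝ} {φ : ℝ → E × ℝ → E × ℝ}
    (hX : ContDiff ℝ 1 (XF F g θ)) {K : NNReal} (hK : LipschitzWith K (XF F g θ))
    (hφ : IsFlowOf (XF F g θ) φ) (t : ℝ) (w v : E × ℝ) : (fderiv ℝ (φ t) w v).2 = v.2 := by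
  have h1 := (flow_diff hX hK hφ t w).hasFDerivAt
  have h2 : HasFDerivAt (fun w => (φ t w).2)
      ((ContinuousLinearMap.snd ℝ E ℝ).comp (fderiv ℝ (φ t) w)) w :=
    (hasFDerivAt_snd (𝕜 := ℝ) (p := φ t w)).comp w h1
  have h3 : (fun w => (φ t w).2) = fun w : E × ℝ => w.2 := by
    funext w; exact flow_snd hφ t w
  rw [h3] at h2
  have h4 := h2.unique hasFDerivAt_snd
  have h5 := congrArg (fun L : (E × ℝ) →L[ℝ] ℝ => L v) h4
  simpa using h5

lemma var_fst [CompleteSpace E] {F g : E → E} {θ : ℝ → ℝ} {φ : ℝ → E × ℝ → E × ℝ}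
    (hF : ContDiff ℝ 1 F) (hg : ContDiff ℝ 1 g) (hθ : ContDiff ℝ 1 θ)
    {K : NNReal} (hK : LipschitzWith K (XF F g θ))
    (hφ : IsFlowOf (XF F g θ) φ) (t : ℝ) (w v : E × ℝ) :
    HasDerivAt (fun t => (fderiv ℝ (φ t) w v).1)
      (fderiv ℝ F (φ t w).1 (fderiv ℝ (φ t) w v).1 +
        (θ w.2 • fderiv ℝ g (φ t w).1 (fderiv ℝ (φ t) w v).1 +
          (fderiv ℝ θ w.2 v.2) • g (φ t w).1)) t := by
  have hX := XF_contDiff hF hg hθ
  have h1 := flow_fund hX hK hφ w v t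
  have h2 := (hasFDerivAt_fst (𝕜 := ℝ) (p := fderiv ℝ (φ t) w v)).comp_hasDerivAt t h1
  rw [XF_fderiv hF hg hθ, fderiv_snd hX hK hφ, flow_snd hφ] at h2
  exact h2

lemma isInvertible_of_injective {V : Type} [NormedAddCommGroup V] [NormedSpace ℝ V]
    [FiniteDimensional ℝ V] {A : V →L[ℝ] V} (h : Function.Injective A) : A.IsInvertible := by
  refine ⟨(LinearEquiv.ofInjectiveEndo (A : V →ₗ[ℝ] V) h).toContinuousLinearEquiv, ?_⟩
  ext v
  rfl

theorem persist [FiniteDimensional ℝ E] {f : E → E} (hf : ContDiff ℝ 1 f) {x : ℝ → E} {T : ℝ}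
    (hx : PerOrb f x T) (hN : NDeg f x T) {t₀ : ℝ} (ht₀ : t₀ ∈ Icc 0 T) :
    ∃ C : ℝ, 0 ≤ C ∧ ∀ g : E → E, ContDiff ℝ 1 g → (∃ Kg : NNReal, LipschitzWith Kg g) →
      (∃ B : NNReal, ∀ z, ‖g z‖ ≤ B) →
      ∃ (y : ℝ → ℝ → E) (τ : ℝ → ℝ), y 0 = x ∧ τ 0 = T ∧ ContinuousAt τ 0 ∧
        (∀ t, ContinuousAt (fun p : ℝ × ℝ => y p.1 p.2) (0, t)) ∧
        (∀ᶠ ε in 𝓝 (0:ℝ), PerOrb (fun z => f z + ε • g z) (y ε) (τ ε) ∧
          NDeg (fun z => f z + ε • g z) (y ε) (τ ε)) ∧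
        ∃ ζ : E, HasDerivAt (fun ε => y ε t₀) ζ 0 ∧
          ‖ζ‖ ≤ C * ∫ s in (0:ℝ)..T, ‖g (x s)‖ := by
  have : CompleteSpace E := FiniteDimensional.complete ℝ E
  obtain ⟨Φ, hΦ, ℓ, hℓ⟩ := hN
  obtain ⟨R, hR0, hR⟩ : ∃ R : ℝ, 0 ≤ R ∧ ∀ t, ‖x t‖ ≤ R := by
    obtain ⟨R, hR⟩ := (isCompact_Icc (a := 0) (b := T)).exists_bound_of_continuousOn
      hx.continuous.continuousOn
    refine ⟨max R 0, le_max_right _ _, fun t => ?_⟩
    obtain ⟨s, hs, h⟩ := hx.periodic.exists_mem_Ico₀ hx.pos t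
    rw [h]
    exact (hR s (Ico_subset_Icc_self hs)).trans (le_max_left _ _)
  obtain ⟨F, hF, ⟨KF, hKF⟩, ⟨MF, hMF⟩, hFf⟩ := exists_cut hf hR0
  obtain ⟨θ, hθ, ⟨Kθ, hKθ⟩, ⟨Mθ, hMθ⟩, hθf⟩ :=
    exists_cut (E := ℝ) (G := ℝ) (f := id) contDiff_id (R := 0) le_rfl
  have hθ0 : θ 0 = 0 := hθf 0 (by simp)
  have hθ1 : ∀ ε : ℝ, |ε| < 1 → θ ε = ε := fun ε hε => hθf ε (by simpa using hε)
  have hθ' : fderiv ℝ θ 0 1 = 1 := by
    have h1 : θ =ᶠ[𝓝 0] id := by
      filter_upwards [Metric.ball_mem_nhds (0:ℝ) one_pos] with ε hε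
      exact hθf ε (by simpa using hε)
    rw [h1.fderiv_eq, fderiv_id]; rfl
  have hfF : ∀ z ∈ Metric.ball (0:E) (R + 1), fderiv ℝ F z = fderiv ℝ f z := by
    intro z hz
    apply Filter.EventuallyEq.fderiv_eq
    filter_upwards [Metric.isOpen_ball.mem_nhds hz] with w hw
    exact hFf w hw
  obtain ⟨K, hK0, hK⟩ : ∃ K : ℝ, 0 < K ∧ ∀ t ∈ Icc 0 T, ‖fderiv ℝ f (x t)‖ ≤ K := by
    obtain ⟨K, hK⟩ := (isCompact_Icc (a := 0) (b := T)).exists_bound_of_continuousOn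
      (f := fun t => fderiv ℝ f (x t))
      ((hf.continuous_fderiv one_ne_zero).comp hx.continuous).continuousOn
    exact ⟨max K 1, lt_of_lt_of_le one_pos (le_max_right _ _),
      fun t ht => (hK t ht).trans (le_max_left _ _)⟩
  have hxb : ∀ t, x t ∈ Metric.ball (0:E) (R + 1) := fun t => by
    rw [mem_ball_zero_iff]; linarith [hR t]
  set A : (E × ℝ) →L[ℝ] (E × ℝ) :=
    (((Φ T - ContinuousLinearMap.id ℝ E).comp (ContinuousLinearMap.fst ℝ E ℝ)) +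
      (ContinuousLinearMap.snd ℝ E ℝ).smulRight (f (x 0))).prod
      (ℓ.comp (ContinuousLinearMap.fst ℝ E ℝ)) with hA
  have hAa : ∀ u s, A (u, s) = (Φ T u - u + s • f (x 0), ℓ u) := by
    intro u s; simp [hA]
  have hAinj : Function.Injective A := by
    rw [injective_iff_map_eq_zero]
    rintro ⟨u, s⟩ h
    rw [hAa, Prod.mk_eq_zero] at h
    obtain ⟨h1, h2⟩ := hℓ u s h.1 h.2
    rw [h1, h2]; rfl
  have hAinv : A.IsInvertible := isInvertible_of_injective hAinj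
  refine ⟨‖Φ t₀‖ * (‖A.inverse‖ * Real.exp (K * T)) + Real.exp (K * T), by positivity, ?_⟩
  intro g hg ⟨Kg, hKg⟩ ⟨B, hB⟩
  set X := XF F g θ with hXdef
  have hX : ContDiff ℝ 1 X := XF_contDiff hF hg hθ
  obtain ⟨KX, hKX⟩ := XF_lip hKF hKg hKθ hB hMθ
  obtain ⟨MX, hMX⟩ := XF_bdd hMF hB hMθ
  obtain ⟨φ, hφ⟩ := exists_flowOf hKX hMX
  have hx0 : ∀ t, φ t (x 0, 0) = (x t, 0) := by
    have hy : ∀ t, HasDerivAt (fun t => (x t, (0:ℝ))) (X (x t, 0)) t := by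
      intro t
      have h1 := (hx.sol t).prodMk (hasDerivAt_const t (0:ℝ))
      have h2 : X (x t, 0) = (f (x t), 0) := by
        simp [hXdef, XF, hθ0, hFf _ (hxb t)]
      rw [h2]; exact h1
    exact fun t => flow_eq hKX hφ (y := fun t => (x t, (0:ℝ))) hy t
  have hD1 : ∀ u, ∀ t ∈ Icc 0 T, (fderiv ℝ (φ t) (x 0, 0) (u, 0)).1 = Φ t u := by
    intro u t ht
    have h := lin_zero (A := fun t => fderiv ℝ f (x t)) (K := K) (T := T) hK
      (w := fun t => (fderiv ℝ (φ t) (x 0, 0) (u, 0)).1 - Φ t u) ?_ ?_ t ht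
    · exact sub_eq_zero.1 h
    · intro s hs
      have h1 := (var_fst hF hg hθ hKX hφ s (x 0, 0) (u, 0)).sub (hΦ.2 u s)
      simp only [hx0, hθ0, zero_smul, map_zero, add_zero, hfF _ (hxb s)] at h1
      rw [← map_sub] at h1
      exact h1
    · simp only [fderiv_flow_zero hφ, hΦ.1 u, sub_self]
  set ξ : ℝ → E := fun t => (fderiv ℝ (φ t) (x 0, 0) (0, 1)).1 with hξ
  set I : ℝ := ∫ s in (0:ℝ)..T, ‖g (x s)‖ with hI
  have hI0 : 0 ≤ I := intervalIntegral.integral_nonneg hx.pos.le (fun s _ => norm_nonneg _)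
  have hξb : ∀ t ∈ Icc 0 T, ‖ξ t‖ ≤ Real.exp (K * T) * I := by
    refine forced_bound (A := fun t => fderiv ℝ f (x t)) (b := fun t => g (x t)) hK0 hK
      (hg.continuous.comp hx.continuous) ?_ ?_
    · intro s hs
      have h1 := var_fst hF hg hθ hKX hφ s (x 0, 0) (0, 1)
      simp only [hx0, hθ0, zero_smul, zero_add, hθ', one_smul, hfF _ (hxb s)] at h1
      exact h1
    · simp only [hξ, fderiv_flow_zero hφ]
  -- the equation
  set m : (ℝ × (E × ℝ)) →L[ℝ] (ℝ × (E × ℝ)) :=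
    ((ContinuousLinearMap.snd ℝ E ℝ).comp (ContinuousLinearMap.snd ℝ ℝ (E × ℝ))).prod
      (((ContinuousLinearMap.fst ℝ E ℝ).comp (ContinuousLinearMap.snd ℝ ℝ (E × ℝ))).prod
        (ContinuousLinearMap.fst ℝ ℝ (E × ℝ))) with hm
  set H : ℝ × (E × ℝ) → E × ℝ :=
    fun w => ((φ w.2.2 (w.2.1, w.1)).1 - w.2.1, ℓ (w.2.1 - x 0)) with hH
  have hΨ := contDiff_flow' hX hKX hφ
  have hH' : ∀ w, HasFDerivAt H
      ((((ContinuousLinearMap.fst ℝ E ℝ).comp ((fderiv ℝ (fun p : ℝ × (E × ℝ) => φ p.1 p.2)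
        (w.2.2, (w.2.1, w.1))).comp m)) - ((ContinuousLinearMap.fst ℝ E ℝ).comp
        (ContinuousLinearMap.snd ℝ ℝ (E × ℝ)))).prod
        (ℓ.comp ((ContinuousLinearMap.fst ℝ E ℝ).comp
          (ContinuousLinearMap.snd ℝ ℝ (E × ℝ))))) w := by
    intro w
    have h1 := (hΨ.differentiable one_ne_zero (w.2.2, (w.2.1, w.1))).hasFDerivAt
    have h2 : HasFDerivAt (fun w : ℝ × (E × ℝ) => φ w.2.2 (w.2.1, w.1))
        ((fderiv ℝ (fun p : ℝ × (E × ℝ) => φ p.1 p.2) (w.2.2, (w.2.1, w.1))).comp m) w :=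
      HasFDerivAt.comp (g := fun p : ℝ × (E × ℝ) => φ p.1 p.2) (f := m) w h1 m.hasFDerivAt
    have h3 := (hasFDerivAt_fst (𝕜 := ℝ) (p := φ w.2.2 (w.2.1, w.1))).comp w h2
    have h4 : HasFDerivAt (fun w : ℝ × (E × ℝ) => w.2.1) ((ContinuousLinearMap.fst ℝ E ℝ).comp
        (ContinuousLinearMap.snd ℝ ℝ (E × ℝ))) w :=
      ((ContinuousLinearMap.fst ℝ E ℝ).comp
        (ContinuousLinearMap.snd ℝ ℝ (E × ℝ))).hasFDerivAt
    have h5 := ℓ.hasFDerivAt.comp w (h4.sub_const (x 0))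
    exact (h3.sub h4).prodMk h5
  have hHc : ContDiff ℝ 1 H := by
    have h2 : ContDiff ℝ 1 (fun w : ℝ × (E × ℝ) => φ w.2.2 (w.2.1, w.1)) :=
      hΨ.comp m.contDiff
    exact (h2.fst.sub contDiff_snd.fst).prodMk (ℓ.contDiff.comp (contDiff_snd.fst.sub
      contDiff_const))
  have hHv : ∀ w v, fderiv ℝ H w v = ((v.2.2 • X (φ w.2.2 (w.2.1, w.1)) +
      fderiv ℝ (φ w.2.2) (w.2.1, w.1) (v.2.1, v.1)).1 - v.2.1, ℓ v.2.1) := by
    intro w v
    rw [(hH' w).fderiv]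
    have h1 : m v = (v.2.2, (v.2.1, v.1)) := rfl
    have h2 := fderiv_joint hX hKX hφ w.2.2 v.2.2 (w.2.1, w.1) (v.2.1, v.1)
    simp only [ContinuousLinearMap.prod_apply, sub_apply,
      ContinuousLinearMap.comp_apply, h1, h2]
    rfl
  have hX0 : X (x 0, 0) = (f (x 0), 0) := by
    simp [hXdef, XF, hθ0, hFf _ (hxb 0)]
  have hxT : x T = x 0 := by have := hx.per 0; rwa [zero_add] at this
  have hinr : (fderiv ℝ H (0, (x 0, T))).comp (ContinuousLinearMap.inr ℝ ℝ (E × ℝ)) = A := by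
    apply ContinuousLinearMap.ext
    rintro ⟨u, s⟩
    rw [ContinuousLinearMap.comp_apply, hHv, hAa]
    simp only [ContinuousLinearMap.inr_apply, hx0, hxT, hX0, Prod.fst_add, Prod.smul_fst]
    rw [hD1 u T ⟨hx.pos.le, le_rfl⟩]
    congr 1
    abel
  have inv : (fderiv ℝ H (0, (x 0, T)) ∘L .inr ℝ ℝ (E × ℝ)).IsInvertible := by
    rw [hinr]; exact hAinv
  have cdf : ContDiffAt ℝ 1 H (0, (x 0, T)) := hHc.contDiffAt
  set ψ := cdf.implicitFunction one_ne_zero inv with hψ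
  have ψ0 : ψ 0 = (x 0, T) := cdf.implicitFunction_apply_self one_ne_zero inv
  have ψe : ∀ᶠ ε in 𝓝 (0:ℝ), H (ε, ψ ε) = H (0, (x 0, T)) :=
    cdf.eventually_apply_implicitFunction one_ne_zero inv
  have ψd := (cdf.hasStrictFDerivAt_implicitFunction one_ne_zero inv).hasFDerivAt
  rw [hinr] at ψd
  have ψc : ContinuousAt ψ 0 := ψd.continuousAt
  have hH0 : H (0, (x 0, T)) = 0 := by
    simp only [hH, hx0, hxT, sub_self, map_zero]; rfl
  set q' : E := ((-A.inverse ∘L (fderiv ℝ H (0, (x 0, T)) ∘L .inl ℝ ℝ (E × ℝ))) 1).1 with hq'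
  have ψd1 : HasDerivAt (fun ε => (ψ ε).1) q' 0 := by
    have h1 := (hasFDerivAt_fst (𝕜 := ℝ) (p := ψ 0)).comp_hasDerivAt (0:ℝ)
      ψd.hasDerivAt
    exact h1
  have hq'b : ‖q'‖ ≤ ‖A.inverse‖ * (Real.exp (K * T) * I) := by
    have h1 : (fderiv ℝ H (0, (x 0, T)) ∘L .inl ℝ ℝ (E × ℝ)) 1 = (ξ T, 0) := by
      rw [ContinuousLinearMap.comp_apply, hHv]
      simp only [ContinuousLinearMap.inl_apply, Prod.fst_zero, Prod.snd_zero, zero_smul,
        zero_add, sub_zero, map_zero, hξ]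
    have h2 : q' = (-(A.inverse (ξ T, 0))).1 := by
      rw [← h1]; rfl
    rw [h2, Prod.fst_neg, norm_neg]
    refine (norm_fst_le _).trans ((A.inverse.le_opNorm _).trans ?_)
    gcongr
    rw [Prod.norm_def]
    simp only [norm_zero]
    rw [max_eq_left (norm_nonneg _)]
    exact hξb T ⟨hx.pos.le, le_rfl⟩
  -- joint continuity
  have hyc : ∀ t, ContinuousAt (fun p : ℝ × ℝ => (φ p.2 ((ψ p.1).1, p.1)).1) (0, t) := by
    intro t
    have h1 : ContinuousAt (fun p : ℝ × ℝ => (p.2, ((ψ p.1).1, p.1))) (0, t) := by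
      refine continuousAt_snd.prodMk (ContinuousAt.prodMk ?_ continuousAt_fst)
      have h2 : ContinuousAt (fun p : ℝ × ℝ => ψ p.1) (0, t) :=
        ContinuousAt.comp (f := fun p : ℝ × ℝ => p.1) (g := ψ) (x := (0, t)) ψc
          continuousAt_fst
      exact continuousAt_fst.comp h2
    have h3 : ContinuousAt (fun p : ℝ × (E × ℝ) => φ p.1 p.2) (t, ((ψ 0).1, 0)) :=
      hΨ.continuous.continuousAt
    have h4 : ContinuousAt (fun p : ℝ × ℝ => φ p.2 ((ψ p.1).1, p.1)) (0, t) :=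
      ContinuousAt.comp (f := fun p : ℝ × ℝ => (p.2, ((ψ p.1).1, p.1)))
        (g := fun p : ℝ × (E × ℝ) => φ p.1 p.2) (x := (0, t)) h3 h1
    exact continuousAt_fst.comp h4
  have hτc : ContinuousAt (fun ε => (ψ ε).2) 0 := continuousAt_snd.comp ψc
  refine ⟨fun ε t => (φ t ((ψ ε).1, ε)).1, fun ε => (ψ ε).2, ?_, ?_, hτc, hyc, ?_, ?_⟩
  · funext t; simp only [ψ0, hx0]
  · simp only [ψ0]
  · -- persistence
    have e1 : ∀ᶠ ε in 𝓝 (0:ℝ), |ε| < 1 := by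
      have := Metric.ball_mem_nhds (0:ℝ) one_pos
      filter_upwards [this] with ε hε
      simpa using hε
    have e2 : ∀ᶠ ε in 𝓝 (0:ℝ), 0 < (ψ ε).2 ∧ (ψ ε).2 < 2 * T := by
      have h1 : Tendsto (fun ε => (ψ ε).2) (𝓝 0) (𝓝 T) := by
        have := hτc.tendsto
        simpa only [ψ0] using this
      exact (h1.eventually (lt_mem_nhds hx.pos)).and
        (h1.eventually (gt_mem_nhds (by linarith [hx.pos])))
    have e3 : ∀ᶠ ε in 𝓝 (0:ℝ), ∀ t ∈ Icc 0 (2 * T),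
        (φ t ((ψ ε).1, ε)).1 ∈ Metric.ball (0:E) (R + 1) := by
      refine (isCompact_Icc (a := 0) (b := 2 * T)).eventually_forall_of_forall_eventually
        (P := fun ε t => (φ t ((ψ ε).1, ε)).1 ∈ Metric.ball (0:E) (R + 1)) ?_
      intro t _
      refine (hyc t).eventually_mem (Metric.isOpen_ball.mem_nhds ?_)
      simp only [ψ0, hx0]
      exact hxb t
    have e4 : ∀ᶠ ε in 𝓝 (0:ℝ), f (ψ ε).1 + ε • g (ψ ε).1 ≠ 0 := by
      have h1 : ContinuousAt (fun ε : ℝ => f (ψ ε).1 + ε • g (ψ ε).1) 0 := by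
        have h2 : ContinuousAt (fun ε => (ψ ε).1) 0 := continuousAt_fst.comp ψc
        exact (hf.continuous.continuousAt.comp h2).add
          (continuousAt_id.smul (hg.continuous.continuousAt.comp h2))
      refine h1.eventually_ne ?_
      simp only [ψ0, zero_smul, add_zero]
      exact hx.ne
    have e5 : ∀ᶠ ε in 𝓝 (0:ℝ),
        ((fderiv ℝ H (ε, ψ ε)).comp (ContinuousLinearMap.inr ℝ ℝ (E × ℝ))).IsInvertible := by
      have h1 : ContinuousAt (fun ε : ℝ =>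
          (fderiv ℝ H (ε, ψ ε)).comp (ContinuousLinearMap.inr ℝ ℝ (E × ℝ))) 0 := by
        have h2 : ContinuousAt (fun ε : ℝ => (ε, ψ ε)) 0 := continuousAt_id.prodMk ψc
        have h3 : ContinuousAt (fun ε : ℝ => fderiv ℝ H (ε, ψ ε)) 0 :=
          ContinuousAt.comp (f := fun ε : ℝ => (ε, ψ ε)) (g := fderiv ℝ H) (x := 0)
            (hHc.continuous_fderiv one_ne_zero).continuousAt h2
        exact h3.clm_comp continuousAt_const
      obtain ⟨e, he⟩ := hAinv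
      have h4 := ContinuousLinearEquiv.nhds e
      have h5 : ∀ᶠ B in 𝓝 ((e : (E × ℝ) →L[ℝ] (E × ℝ))), B.IsInvertible := by
        filter_upwards [h4] with B hB
        obtain ⟨e', he'⟩ := hB
        exact ⟨e', he'⟩
      refine h1.eventually ?_
      simp only [ψ0]
      rw [hinr, ← he]
      exact h5
    filter_upwards [e1, e2, e3, e4, e5, ψe] with ε h1 h2 h3 h4 h5 h6
    rw [hH0] at h6
    have hq : (φ (ψ ε).2 ((ψ ε).1, ε)).1 = (ψ ε).1 := by
      have := congrArg Prod.fst h6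
      simp only [hH, Prod.fst_zero] at this
      exact sub_eq_zero.1 this
    have hq2 : φ (ψ ε).2 ((ψ ε).1, ε) = ((ψ ε).1, ε) :=
      Prod.ext hq (flow_snd hφ _ _)
    have hper : ∀ t, φ (t + (ψ ε).2) ((ψ ε).1, ε) = φ t ((ψ ε).1, ε) := by
      intro t
      rw [hφ.add hKX, hq2]
    have hball : ∀ t, (φ t ((ψ ε).1, ε)).1 ∈ Metric.ball (0:E) (R + 1) := by
      intro t
      have hp : Function.Periodic (fun t => φ t ((ψ ε).1, ε)) (ψ ε).2 := hper
      obtain ⟨s, hs, h⟩ := hp.exists_mem_Ico₀ h2.1 t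
      have h' : φ t ((ψ ε).1, ε) = φ s ((ψ ε).1, ε) := h
      rw [h']
      exact h3 s ⟨hs.1, hs.2.le.trans h2.2.le⟩
    have hsol : ∀ t, HasDerivAt (fun t => (φ t ((ψ ε).1, ε)).1)
        (f (φ t ((ψ ε).1, ε)).1 + ε • g (φ t ((ψ ε).1, ε)).1) t := by
      intro t
      have := flow_fst hφ t ((ψ ε).1, ε)
      rw [hFf _ (hball t), hθ1 ε h1] at this
      exact this
    refine ⟨⟨hsol, fun t => by simp only [hper t], h2.1, ?_⟩, ?_⟩
    · simp only [hφ.zero]; exact h4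
    · refine ⟨fun t => (ContinuousLinearMap.fst ℝ E ℝ).comp
        ((fderiv ℝ (φ t) ((ψ ε).1, ε)).comp (ContinuousLinearMap.inl ℝ E ℝ)), ⟨?_, ?_⟩, ℓ, ?_⟩
      · intro v
        simp [fderiv_flow_zero hφ]
      · intro v t
        have h7 := var_fst hF hg hθ hKX hφ t ((ψ ε).1, ε) (v, 0)
        have h8 : fderiv ℝ (fun z => f z + ε • g z) (φ t ((ψ ε).1, ε)).1 =
            fderiv ℝ f (φ t ((ψ ε).1, ε)).1 + ε • fderiv ℝ g (φ t ((ψ ε).1, ε)).1 := by
          have := ((hf.differentiable one_ne_zero (φ t ((ψ ε).1, ε)).1).hasFDerivAt).add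
            (((hg.differentiable one_ne_zero (φ t ((ψ ε).1, ε)).1).hasFDerivAt).const_smul ε)
          exact this.fderiv
        rw [h8]
        simp only [map_zero, zero_smul, add_zero, hfF _ (hball t), hθ1 ε h1] at h7
        exact h7
      · intro u s hu hl
        obtain ⟨e, he⟩ := h5
        have hXq : X ((ψ ε).1, ε) = (f (ψ ε).1 + ε • g (ψ ε).1, 0) := by
          have := hball 0
          rw [hφ.zero] at this
          simp [hXdef, XF, hθ1 ε h1, hFf _ this]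
        have h9 : ((fderiv ℝ H (ε, ψ ε)).comp (ContinuousLinearMap.inr ℝ ℝ (E × ℝ))) (u, s)
            = 0 := by
          rw [ContinuousLinearMap.comp_apply, hHv]
          simp only [ContinuousLinearMap.inr_apply, hq2, hXq, Prod.fst_add, Prod.smul_fst, hl]
          simp only [ContinuousLinearMap.comp_apply, ContinuousLinearMap.inl_apply,
            ContinuousLinearMap.coe_fst', hφ.zero] at hu
          have h10 : s • (f (ψ ε).1 + ε • g (ψ ε).1) +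
              (fderiv ℝ (φ (ψ ε).2) ((ψ ε).1, ε) (u, 0)).1 - u = 0 := by
            rw [← hu]; abel
          rw [h10]; rfl
        rw [← he] at h9
        have h11 : ((u, s) : E × ℝ) = 0 := by
          have := e.injective (a₁ := (u, s)) (a₂ := 0)
          apply this
          rw [map_zero]; exact h9
        rw [Prod.mk_eq_zero] at h11
        exact h11
  · -- derivative
    refine ⟨(fderiv ℝ (φ t₀) (x 0, 0) (q', 1)).1, ?_, ?_⟩
    · have h1 : HasDerivAt (fun ε : ℝ => ((ψ ε).1, ε)) (q', 1) 0 := ψd1.prodMk (hasDerivAt_id 0)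
      have h2 := (flow_diff hX hKX hφ t₀ ((ψ 0).1, 0)).hasFDerivAt
      have h3 := HasFDerivAt.comp_hasDerivAt (f := fun ε : ℝ => ((ψ ε).1, ε)) (l := φ t₀)
        (0:ℝ) h2 h1
      have h4 := (hasFDerivAt_fst (𝕜 := ℝ)
        (p := φ t₀ ((ψ 0).1, 0))).comp_hasDerivAt (0:ℝ) h3
      rw [ψ0] at h4
      exact h4
    · have h1 : ((q', 1) : E × ℝ) = (q', 0) + (0, 1) := by simp
      rw [h1, map_add, Prod.fst_add, hD1 q' t₀ ht₀]
      refine (norm_add_le _ _).trans ?_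
      have h2 : ‖Φ t₀ q'‖ ≤ ‖Φ t₀‖ * (‖A.inverse‖ * (Real.exp (K * T) * I)) :=
        ((Φ t₀).le_opNorm q').trans (by gcongr)
      have h3 := hξb t₀ ht₀
      calc _ ≤ ‖Φ t₀‖ * (‖A.inverse‖ * (Real.exp (K * T) * I)) + Real.exp (K * T) * I :=
            add_le_add h2 h3
        _ = _ := by ring

end

end Pool.Agent.H446R3.RS
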